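import Pool.Agent.H77.PH.Defs

/-!
# UnifLin: the values of a random linear map are uniform (about 70 lines)

`expect_lc`: some `v i = 1`; `lc v (update x i (x i + z)) = lc v x + z`, so
`𝔼 x, H (lc v x) = 𝔼 x, H (lc v x + z)` for every `z : X` (translation of the coordinate `i`:
`x ↦ x + Pi.single i z`, `expect_add_right` of H77/KM/Basic). Average over `z`, exchange the averages
(`Finset.expect_comm`), and `𝔼 z, H (lc v x + z) = 𝔼 z, H z` (`expect_add_left`).

`psi_self`: `lc e x + 1 • (lc e x + z) = z` (`ZModModule.add_self`).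

`expect_psi`: if `l v = 0` then `psi e l z x v = lc v x`: `expect_lc`. If `l v = 1` then
`psi e l z x v = lc (v + e) x + z` with `v + e ≠ 0` (characteristic two): `expect_lc` for
`z' ↦ H (z' + z)` and `expect_add_right`.
-/

set_option autoImplicit false

open Finset Function Module
open scoped BigOperators
open Pool.Agent.H77.KM
open Pool.Agent.H22.QK
open Pool.Agent.H22.QF

namespace Pool.Agent.H77.PH

variable {X : Type} [AddCommGroup X] [Module (ZMod 2) X]

theorem psi_self (e : F3) (l : Dual (ZMod 2) F3) (hl : l e = 1) (z : X) (x : Fin 3 → X) :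
    psi e l z x e = z := by
  rw [psi_apply, hl, one_smul, ← add_assoc, ZModModule.add_self, zero_add]

variable [Fintype X]

theorem expect_lc (v : F3) (hv : v ≠ 0) (H : X → ℝ) :
    𝔼 x : Fin 3 → X, H (lc v x) = 𝔼 z, H z := by
  have hex : ∃ i, v i = 1 := by
    by_contra hcon
    push Not at hcon
    apply hv
    funext i
    have h := hcon i
    have h2 : ∀ a : ZMod 2, a ≠ 1 → a = 0 := by decide
    exact h2 _ h
  obtain ⟨i, hi⟩ := hex
  have htr : ∀ z : X, 𝔼 x : Fin 3 → X, H (lc v x) = 𝔼 x : Fin 3 → X, H (lc v x + z) := by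
    intro z
    symm
    refine Fintype.expect_equiv (Equiv.addRight (Pi.single i z)) _ _ (fun x => ?_)
    have h1 : lc v ((Equiv.addRight (Pi.single i z : Fin 3 → X)) x) = lc v x + z := by
      simp only [lc, Equiv.coe_addRight, Pi.add_apply, smul_add, Finset.sum_add_distrib]
      congr 1
      rw [Finset.sum_eq_single i]
      · rw [Pi.single_eq_same, hi, one_smul]
      · intro j _ hj
        rw [Pi.single_eq_of_ne hj, smul_zero]
      · intro h
        exact absurd (Finset.mem_univ i) h
    rw [h1]
  calc 𝔼 x : Fin 3 → X, H (lc v x)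
      = 𝔼 _z : X, 𝔼 x : Fin 3 → X, H (lc v x) := by
        rw [Fintype.expect_const]
    _ = 𝔼 z : X, 𝔼 x : Fin 3 → X, H (lc v x + z) := by
        refine Finset.expect_congr rfl (fun z _ => htr z)
    _ = 𝔼 x : Fin 3 → X, 𝔼 z : X, H (lc v x + z) := Finset.expect_comm _ _ _
    _ = 𝔼 _x : Fin 3 → X, 𝔼 z : X, H z := by
        refine Finset.expect_congr rfl (fun x _ => expect_add_left H (lc v x))
    _ = 𝔼 z, H z := by rw [Fintype.expect_const]

theorem expect_psi (e : F3) (l : Dual (ZMod 2) F3) (hl : l e = 1) (z : X) (v : F3) (hv : v ≠ 0)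
    (hve : v ≠ e) (H : X → ℝ) :
    𝔼 x : Fin 3 → X, H (psi e l z x v) = 𝔼 z', H z' := by
  have h2 : ∀ a : ZMod 2, a = 0 ∨ a = 1 := by decide
  rcases h2 (l v) with h0 | h1
  · have h : ∀ x : Fin 3 → X, psi e l z x v = lc v x := by
      intro x
      rw [psi_apply, h0, zero_smul, add_zero]
    simp only [h]
    exact expect_lc v hv H
  · have h : ∀ x : Fin 3 → X, psi e l z x v = lc (v + e) x + z := by
      intro x
      rw [psi_apply, h1, one_smul, lc_add, add_assoc]
    simp only [h]
    have hne : v + e ≠ 0 := by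
      intro h0
      apply hve
      have h3 : v + e + e = v := by rw [add_assoc, ZModModule.add_self, add_zero]
      rw [h0, zero_add] at h3
      exact h3.symm
    rw [expect_lc (v + e) hne (fun z' => H (z' + z))]
    exact expect_add_right H z

end Pool.Agent.H77.PH
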