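import Pool.Agent.H77.PH.RefSys
import Pool.Agent.H77.PH.UnifLin

/-!
# AvgRef: the average density on the random refinements (about 80 lines)

PROOF. Let `X = S.W × Z` and for `p : X` put
`H p = card (S.Y × Z) * 𝔼 w : W', S.fn A v (p.1 + f' w) * iv ((S.g v (p.1 + f' w), h w + h 0 + p.2) = 0)`.
The left side is `𝔼 x, H (psi e l z x v)` (`S1.t v + S1.f w = S.t v + S.f ((Ψ v).1 + f' w)`), which is
`𝔼 p, H p` by `expect_psi`. `iv ((a, b) = 0) = iv (a = 0) * iv (b = 0)`. Exchange the averages; for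
fixed `w`: `𝔼 p2 : Z, iv (h w + h 0 + p2 = 0) = 1 / card Z` (exactly one `p2`), and
`𝔼 p1 : S.W, S.fn A v (p1 + f' w) * iv (S.g v (p1 + f' w) = 0)` does not depend on `w`
(`expect_add_right`). `card (S.Y × Z) / card Z = card S.Y`. (`Finset.expect_product` for the product
type `X`, written as `Finset.univ_product_univ`.)
-/

set_option autoImplicit false

open Finset Function Module
open scoped BigOperators
open Pool.Agent.H77.KM
open Pool.Agent.H22.QK
open Pool.Agent.H22.QF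

namespace Pool.Agent.H77.PH

/-- The density of the refined system as a function of the value of `Ψ` at `v`. -/
private noncomputable def avH {V : Type} [AddCommGroup V] [Module (ZMod 2) V] (S : Sys V)
    {W' Z : Type} [AddCommGroup W'] [Module (ZMod 2) W']
    [Fintype W'] [AddCommGroup Z] [Module (ZMod 2) Z] [Fintype Z] (f' : W' →ₗ[ZMod 2] S.W)
    (h : W' → Z) (A : F3 → V → ℝ) (v : F3) (p : S.W × Z) : ℝ :=
  (Fintype.card (S.Y × Z) : ℝ) * 𝔼 w : W', S.fn A v (p.1 + f' w) *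
    iv (((S.g v (p.1 + f' w), h w + h 0 + p.2) : S.Y × Z) = 0)

private theorem dn_ref {V : Type} [AddCommGroup V] [Module (ZMod 2) V]
    (S : Sys V) {W' Z : Type} [AddCommGroup W'] [Module (ZMod 2) W']
    [Fintype W'] [AddCommGroup Z] [Module (ZMod 2) Z] [Fintype Z] (f' : W' →ₗ[ZMod 2] S.W)
    (hf' : Injective f') (h : W' → Z) (c' : W' →ₗ[ZMod 2] W' →ₗ[ZMod 2] (S.Y × Z)) (e : F3)
    (w0 : S.W) (hq : IsQM (fun w => ((S.g e (w0 + f' w), h w) : S.Y × Z)) c')
    (A : F3 → V → ℝ) (v : F3) (Ψ : F3 →ₗ[ZMod 2] (S.W × Z)) :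
    dn ((ref S f' hf' h c' e w0 hq Ψ).fn A v) ((ref S f' hf' h c' e w0 hq Ψ).g v) =
      avH S f' h A v (Ψ v) := by
  have e1 : ∀ w : W', (ref S f' hf' h c' e w0 hq Ψ).fn A v w = S.fn A v ((Ψ v).1 + f' w) := by
    intro w
    change A v (S.t v + S.f (Ψ v).1 + S.f (f' w)) = A v (S.t v + S.f ((Ψ v).1 + f' w))
    rw [map_add, add_assoc]
  change (Fintype.card (S.Y × Z) : ℝ) * 𝔼 w : W', (ref S f' hf' h c' e w0 hq Ψ).fn A v w *
    iv (((S.g v ((Ψ v).1 + f' w), h w + h 0 + (Ψ v).2) : S.Y × Z) = 0) = _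
  simp only [e1]
  rfl

/-- Exactly one translate of a point is zero. -/
private theorem expect_iv_add {Z : Type} [AddCommGroup Z] [Fintype Z] (c : Z) :
    𝔼 p : Z, iv (c + p = 0) = (Fintype.card Z : ℝ)⁻¹ := by
  classical
  rw [Finset.expect_eq_sum_div_card, Finset.card_univ, Finset.sum_eq_single (-c)]
  · rw [iv_pos (by simp), one_div]
  · intro b _ hb
    exact iv_neg fun h0 => hb (eq_neg_of_add_eq_zero_right h0)
  · intro h0
    exact absurd (Finset.mem_univ _) h0

private theorem expect_avH {V : Type} [AddCommGroup V] [Module (ZMod 2) V] (S : Sys V)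
    {W' Z : Type} [AddCommGroup W'] [Module (ZMod 2) W']
    [Fintype W'] [AddCommGroup Z] [Module (ZMod 2) Z] [Fintype Z] (f' : W' →ₗ[ZMod 2] S.W)
    (h : W' → Z) (A : F3 → V → ℝ) (v : F3) :
    𝔼 p : S.W × Z, avH S f' h A v p = dn (S.fn A v) (S.g v) := by
  classical
  have hZ : (Fintype.card Z : ℝ) ≠ 0 := Nat.cast_ne_zero.2 Fintype.card_ne_zero
  have e1 : ∀ w : W', 𝔼 p : S.W × Z, S.fn A v (p.1 + f' w) *
      iv (((S.g v (p.1 + f' w), h w + h 0 + p.2) : S.Y × Z) = 0) =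
      (𝔼 p, S.fn A v p * iv (S.g v p = 0)) * (Fintype.card Z : ℝ)⁻¹ := by
    intro w
    rw [← Finset.univ_product_univ, Finset.expect_product]
    have e2 : ∀ p1 : S.W, 𝔼 p2 : Z, S.fn A v (p1 + f' w) *
        iv (((S.g v (p1 + f' w), h w + h 0 + p2) : S.Y × Z) = 0) =
        S.fn A v (p1 + f' w) * iv (S.g v (p1 + f' w) = 0) * (Fintype.card Z : ℝ)⁻¹ := by
      intro p1
      rw [← expect_iv_add (h w + h 0), Finset.mul_expect]
      refine Finset.expect_congr rfl fun p2 _ => ?_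
      rw [mul_assoc, ← iv_and]
      congr 1
      exact iv_congr (by rw [Prod.ext_iff]; rfl)
    rw [Finset.expect_congr rfl fun p1 _ => e2 p1, ← Finset.expect_mul,
      expect_add_right (fun p => S.fn A v p * iv (S.g v p = 0)) (f' w)]
  unfold avH
  rw [← Finset.mul_expect, Finset.expect_comm, Finset.expect_congr rfl fun w _ => e1 w,
    Finset.expect_const Finset.univ_nonempty, Fintype.card_prod, Nat.cast_mul, dn]
  field_simp

variable {V : Type} [AddCommGroup V] [Module (ZMod 2) V]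
variable (S : Sys V) {W' Z : Type} [AddCommGroup W'] [Module (ZMod 2) W']
    [Fintype W'] [AddCommGroup Z] [Module (ZMod 2) Z] [Fintype Z] (f' : W' →ₗ[ZMod 2] S.W)
    (hf' : Injective f') (h : W' → Z) (c' : W' →ₗ[ZMod 2] W' →ₗ[ZMod 2] (S.Y × Z)) (e : F3)
    (w0 : S.W) (hq : IsQM (fun w => ((S.g e (w0 + f' w), h w) : S.Y × Z)) c')

theorem avg_ref (A : F3 → V → ℝ) (l : Dual (ZMod 2) F3) (hl : l e = 1) (z : S.W × Z) (v : F3)
    (hv : v ≠ 0) (hve : v ≠ e) :
    𝔼 x : Fin 3 → (S.W × Z),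
      dn ((ref S f' hf' h c' e w0 hq (psi e l z x)).fn A v)
        ((ref S f' hf' h c' e w0 hq (psi e l z x)).g v)
      = dn (S.fn A v) (S.g v) := by
  classical
  have key : ∀ x : Fin 3 → (S.W × Z),
      dn ((ref S f' hf' h c' e w0 hq (psi e l z x)).fn A v)
        ((ref S f' hf' h c' e w0 hq (psi e l z x)).g v) =
      avH S f' h A v (psi e l z x v) := fun x => dn_ref S f' hf' h c' e w0 hq A v (psi e l z x)
  rw [Finset.expect_congr rfl fun x _ => key x, expect_psi e l hl z v hv hve (avH S f' h A v)]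
  exact expect_avH S f' h A v

end Pool.Agent.H77.PH
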