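import Pool.Agent.H22.QF.QDefs
import Pool.Agent.H22.QK.QLow
import Pool.Agent.H22.QK.FrDefs

/-!
# Phases (part (H) of the project QF): definitions

* `dn A g = |Y| 𝔼 w, A w * iv (g w = 0)`: the normalised density of `A` on the quadric `{g = 0}`.
* `LevR A g k R s t`: all regular pieces of `{g = 0}` of codimension at most `k` with at most `R`
  further equations have normalised density at most `t`.
* `QD A g k R s e`: all these pieces have normalised density at least `(1/2)^e` (the same as `QDense`
  of QF/QDefs, with the target `Y × Z` instead of two factors).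
* `SprP A g k r t`: on all pieces of `{g = 0}` of codimension at most `k` with at most `r` further
  equations (regular or not) the average of `A` is at most `t` times the density of the piece
  (the same as `SprV` for `A * iv (g = 0)`).
* `Sys V`: a system: a space `W` with an injective linear map `f : W → V`, a linear map
  `t : F3 → V` and seven quadratic maps `g v : W → Y` with the same polarisation `c` such that
  `∑_{v ≠ 0} g v (φ v) = 0` for all linear `φ : F3 → W`.
* `S.fn A v = fun w => A v (t v + f w)`.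
* `St`: the state of the construction; `P` is the set of the processed vectors.
* `psi e λ z x`: a random linear map `F3 → X` with prescribed value `z` at `e`.
-/

set_option autoImplicit false

open Finset Function Module
open scoped BigOperators
open Pool.Agent.H77.KM
open Pool.Agent.H22.QK
open Pool.Agent.H22.QF

namespace Pool.Agent.H77.PH

section

variable {V : Type} [AddCommGroup V] [Module (ZMod 2) V] [Fintype V]
variable {Y : Type} [AddCommGroup Y] [Module (ZMod 2) Y] [Fintype Y]

/-- The normalised density of `A` on `{g = 0}`. -/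
noncomputable def dn (A : V → ℝ) (g : V → Y) : ℝ :=
  (Fintype.card Y : ℝ) * 𝔼 w, A w * iv (g w = 0)

/-- All regular pieces of `{g = 0}` have normalised density at most `t`. -/
def LevR (A : V → ℝ) (g : V → Y) (k R s : ℕ) (t : ℝ) : Prop :=
  ∀ (W Z : Type) [AddCommGroup W] [Module (ZMod 2) W] [Fintype W]
    [AddCommGroup Z] [Module (ZMod 2) Z] [Fintype Z] (f : W →ₗ[ZMod 2] V),
    Injective f → finrank (ZMod 2) V ≤ finrank (ZMod 2) W + k → finrank (ZMod 2) Z ≤ R →
    ∀ (w0 : V) (h : W → Z) (c : W →ₗ[ZMod 2] W →ₗ[ZMod 2] (Y × Z)),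
      IsQM (fun w => ((g (w0 + f w), h w) : Y × Z)) c → Reg c s →
      dn (fun w => A (w0 + f w)) (fun w => ((g (w0 + f w), h w) : Y × Z)) ≤ t

/-- All regular pieces of `{g = 0}` have normalised density at least `(1/2)^e`. -/
def QD (A : V → ℝ) (g : V → Y) (k R s e : ℕ) : Prop :=
  ∀ (W Z : Type) [AddCommGroup W] [Module (ZMod 2) W] [Fintype W]
    [AddCommGroup Z] [Module (ZMod 2) Z] [Fintype Z] (f : W →ₗ[ZMod 2] V),
    Injective f → finrank (ZMod 2) V ≤ finrank (ZMod 2) W + k → finrank (ZMod 2) Z ≤ R →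
    ∀ (w0 : V) (h : W → Z) (c : W →ₗ[ZMod 2] W →ₗ[ZMod 2] (Y × Z)),
      IsQM (fun w => ((g (w0 + f w), h w) : Y × Z)) c → Reg c s →
      (1 / 2) ^ e ≤ dn (fun w => A (w0 + f w)) (fun w => ((g (w0 + f w), h w) : Y × Z))

/-- There is a regular piece of `{g = 0}` with normalised density exactly `t`. -/
def HasP (A : V → ℝ) (g : V → Y) (k R s : ℕ) (t : ℝ) : Prop :=
  ∃ (W Z : Type) (_ : AddCommGroup W) (_ : Module (ZMod 2) W) (_ : Fintype W)
    (_ : AddCommGroup Z) (_ : Module (ZMod 2) Z) (_ : Fintype Z) (f : W →ₗ[ZMod 2] V),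
    Injective f ∧ finrank (ZMod 2) V ≤ finrank (ZMod 2) W + k ∧ finrank (ZMod 2) Z ≤ R ∧
    ∃ (w0 : V) (h : W → Z) (c : W →ₗ[ZMod 2] W →ₗ[ZMod 2] (Y × Z)),
      IsQM (fun w => ((g (w0 + f w), h w) : Y × Z)) c ∧ Reg c s ∧
      dn (fun w => A (w0 + f w)) (fun w => ((g (w0 + f w), h w) : Y × Z)) = t

/-- The average of `A` on all pieces of `{g = 0}` is at most `t` times their density. -/
def SprP (A : V → ℝ) (g : V → Y) (k r : ℕ) (t : ℝ) : Prop :=
  ∀ (W Z : Type) [AddCommGroup W] [Module (ZMod 2) W] [Fintype W]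
    [AddCommGroup Z] [Module (ZMod 2) Z] [Fintype Z] (f : W →ₗ[ZMod 2] V),
    Injective f → finrank (ZMod 2) V ≤ finrank (ZMod 2) W + k → finrank (ZMod 2) Z ≤ r →
    ∀ (w0 : V) (h : W → Z) (c : W →ₗ[ZMod 2] W →ₗ[ZMod 2] Z), IsQM h c →
      𝔼 w, A (w0 + f w) * iv (((g (w0 + f w), h w) : Y × Z) = 0)
        ≤ t * 𝔼 w, iv (((g (w0 + f w), h w) : Y × Z) = 0)

end

/-- A system of seven quadratic maps with the same polarisation. -/
structure Sys (V : Type) [AddCommGroup V] [Module (ZMod 2) V] : Type 1 where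
  /-- the space -/
  W : Type
  /-- the target -/
  Y : Type
  [acgW : AddCommGroup W]
  [modW : Module (ZMod 2) W]
  [finW : Fintype W]
  [acgY : AddCommGroup Y]
  [modY : Module (ZMod 2) Y]
  [finY : Fintype Y]
  /-- the translations -/
  t : F3 →ₗ[ZMod 2] V
  /-- the embedding -/
  f : W →ₗ[ZMod 2] V
  /-- the quadratic maps -/
  g : F3 → W → Y
  /-- their common polarisation -/
  c : W →ₗ[ZMod 2] W →ₗ[ZMod 2] Y
  inj : Injective f
  qm : ∀ v, IsQM (g v) c
  sum : ∀ φ : F3 →ₗ[ZMod 2] W, ∑ v ∈ Finset.univ.erase 0, g v (φ v) = 0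

attribute [instance] Sys.acgW Sys.modW Sys.finW Sys.acgY Sys.modY Sys.finY

section

variable {V : Type} [AddCommGroup V] [Module (ZMod 2) V]

/-- The function `w ↦ A v (t v + f w)`. -/
def Sys.fn (S : Sys V) (A : F3 → V → ℝ) (v : F3) : S.W → ℝ := fun w => A v (S.t v + S.f w)

/-- The state of the construction. `P` is the set of the processed vectors, `k`, `r` are the
parameters of the spreadness, `K` the total codimension and `R` the total number of equations. -/
structure St (A : F3 → V → ℝ) (S : Sys V) (P : Finset F3) (k r σ σd s K R : ℕ) (δ : ℝ) :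
    Prop where
  reg : Reg S.c σ
  dimW : finrank (ZMod 2) V ≤ finrank (ZMod 2) S.W + K
  dimY : finrank (ZMod 2) S.Y ≤ R
  qd : ∀ v, v ≠ 0 → QD (S.fn A v) (S.g v) k r σd s
  spr : ∀ v ∈ P, v ≠ 0 ∧ ∃ T : ℝ, 0 < T ∧ SprP (S.fn A v) (S.g v) k r T ∧
    (1 - δ) * T ≤ dn (S.fn A v) (S.g v)

/-- The random linear map with value `z` at `e` (if `l e = 1`). -/
def psi {X : Type} [AddCommGroup X] [Module (ZMod 2) X] (e : F3) (l : Dual (ZMod 2) F3) (z : X)
    (x : Fin 3 → X) : F3 →ₗ[ZMod 2] X where
  toFun := fun v => lc v x + l v • (lc e x + z)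
  map_add' := by
    intro u v
    rw [lc_add, map_add, add_smul]
    abel
  map_smul' := by
    intro c v
    have h : lc (c • v) x = c • lc v x := by
      simp only [lc, Finset.smul_sum, Pi.smul_apply, smul_eq_mul, mul_smul]
    rw [h, map_smul, smul_eq_mul, mul_smul, RingHom.id_apply]
    simp only [smul_add]

lemma psi_apply {X : Type} [AddCommGroup X] [Module (ZMod 2) X] (e : F3)
    (l : Dual (ZMod 2) F3) (z : X) (x : Fin 3 → X) (v : F3) :
    psi e l z x v = lc v x + l v • (lc e x + z) := rfl

end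

/-- `J = 2 N (s + 2)`: the number of density increments in one phase. -/
def phJ (N s : ℕ) : ℕ := 2 * N * (s + 2)

/-- The codimension paid in one phase with final parameters `k`, `r`, `σ`. -/
def phC (N s k r σ : ℕ) : ℕ := phJ N s * (k + phJ N s * r * (2 * σ + 1))

/-- The number of equations available with `i` phases to come. -/
def phR (N s r : ℕ) : ℕ → ℕ
  | 0 => r
  | i + 1 => phR N s r i + phJ N s * phR N s r i

/-- The codimension and the regularity available with `i` phases to come. -/
def phKS (N s k r σ : ℕ) : ℕ → ℕ × ℕ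
  | 0 => (k, σ)
  | i + 1 =>
    let q := phKS N s k r σ i
    (q.1 + phC N s q.1 (phR N s r i) q.2, q.2 + phC N s q.1 (phR N s r i) q.2 + 1)

end Pool.Agent.H77.PH
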