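import Pool.Agent.H77.PH.RefSys

/-!
# Inh: the properties are inherited by the refinement (about 130 lines)

Let `S1 = ref S f' hf' h c' e w0 hq Ψ`. `S1.fn A v w = S.fn A v ((Ψ v).1 + f' w)`, because
`S1.t v + S1.f w = S.t v + S.f ((Ψ v).1 + f' w)` (`ref_fn`).
A piece of `S1.W = W'` given by `f1 : W1 → W'`, `w1`, `h1 : W1 → Z1` is the piece of `S.W` given by
`f' ∘ₗ f1`, base point `(Ψ v).1 + f' w1`, and the further equations
`w ↦ (h (w1 + f1 w) + h 0 + (Ψ v).2, h1 w) ∈ Z × Z1`: codimension at most `k + k1`, number of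
equations at most `r1 + r`. The conditions `((a, b), c) = 0` and `(a, (b, c)) = 0` are equivalent.
For `QD`: the polarisation of the new pair is `c.compr₂ (LinearEquiv.prodAssoc ..)` (or a
hand-made equivalence `(Y × Z) × Z1 ≃ Y × (Z × Z1)`), `IsQM.map`, and `reg_equiv` gives its
regularity; the cardinalities of the two targets agree, so `dn` is the same number.
For `SprP`: the further equations are quadratic: `ref_qm` (second component, `IsQM.map` with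
`LinearMap.snd`), `IsQM.pull` along `f1`, `IsQM.pair` with `h1`.
-/

set_option autoImplicit false

open Finset Function Module
open scoped BigOperators
open Pool.Agent.H77.KM
open Pool.Agent.H22.QK
open Pool.Agent.H22.QF

namespace Pool.Agent.H77.PH

section aux

private theorem inh_iv {p q : Prop} (h : p ↔ q) : iv p = iv q := by
  rw [propext h]

private theorem inh_dn {V Y Y' : Type} [AddCommGroup V] [Module (ZMod 2) V] [Fintype V]
    [AddCommGroup Y] [Module (ZMod 2) Y] [Fintype Y] [AddCommGroup Y'] [Module (ZMod 2) Y']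
    [Fintype Y'] (A : V → ℝ) (g : V → Y) (g' : V → Y') (E : Y ≃ₗ[ZMod 2] Y')
    (h : ∀ w, g' w = E (g w)) : dn A g' = dn A g := by
  unfold dn
  rw [Fintype.card_congr E.toEquiv]
  congr 1
  refine Finset.expect_congr rfl fun w _ => ?_
  congr 1
  refine inh_iv ?_
  rw [h w]
  exact E.map_eq_zero_iff

private theorem inh_assoc {a b c : Type} [AddCommGroup a] [AddCommGroup b] [AddCommGroup c]
    (x : a) (y : b) (z : c) : ((x, (y, z)) : a × b × c) = 0 ↔ (((x, y), z) : (a × b) × c) = 0 := by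
  simp only [Prod.mk_eq_zero, and_assoc]

variable {W Y W' Z : Type} [AddCommGroup W] [Module (ZMod 2) W] [Fintype W]
  [AddCommGroup Y] [Module (ZMod 2) Y] [Fintype Y] [AddCommGroup W'] [Module (ZMod 2) W']
  [Fintype W'] [AddCommGroup Z] [Module (ZMod 2) Z] [Fintype Z]

private theorem inh_qd (B : W → ℝ) (g : W → Y) (f' : W' →ₗ[ZMod 2] W) (hf' : Injective f')
    (h : W' → Z) (x : W) {k k1 r r1 σd s : ℕ}
    (hk : finrank (ZMod 2) W ≤ finrank (ZMod 2) W' + k1) (hz : finrank (ZMod 2) Z ≤ r1)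
    (hQ : QD B g (k + k1) (r + r1) σd s) :
    QD (fun w => B (x + f' w)) (fun w => ((g (x + f' w), h w) : Y × Z)) k r σd s := by
  intro W1 Z1 _ _ _ _ _ _ f1 hf1 hk1 hr1 w1 h1 c1 hq1 hreg
  have e1 : ∀ w, (x + f' w1) + (f' ∘ₗ f1) w = x + f' (w1 + f1 w) := by
    intro w
    rw [LinearMap.comp_apply, map_add, add_assoc]
  let E : ((Y × Z) × Z1) ≃ₗ[ZMod 2] (Y × (Z × Z1)) := LinearEquiv.prodAssoc (ZMod 2) Y Z Z1
  have hfr : finrank (ZMod 2) (Z × Z1) ≤ r + r1 := by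
    rw [finrank_prod]
    omega
  have hqm : IsQM (fun w => ((g ((x + f' w1) + (f' ∘ₗ f1) w), (h (w1 + f1 w), h1 w)) :
      Y × (Z × Z1))) (c1.compr₂ (E : ((Y × Z) × Z1) →ₗ[ZMod 2] (Y × (Z × Z1)))) := by
    have h2 := hq1.map (E : ((Y × Z) × Z1) →ₗ[ZMod 2] (Y × (Z × Z1)))
    have h3 : (fun w => ((g ((x + f' w1) + (f' ∘ₗ f1) w), (h (w1 + f1 w), h1 w)) :
        Y × (Z × Z1))) = (fun w => (E : ((Y × Z) × Z1) →ₗ[ZMod 2] (Y × (Z × Z1)))
        (((g (x + f' (w1 + f1 w)), h (w1 + f1 w)), h1 w) : (Y × Z) × Z1)) := by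
      funext w
      rw [e1]
      rfl
    rw [h3]
    exact h2
  have key := hQ W1 (Z × Z1) (f' ∘ₗ f1) (hf'.comp hf1) (by omega) hfr (x + f' w1)
    (fun w => (h (w1 + f1 w), h1 w)) _ hqm (reg_equiv E c1 hreg)
  refine key.trans (le_of_eq ?_)
  have e2 : (fun w => B (x + f' w1 + (f' ∘ₗ f1) w)) = fun w => B (x + f' (w1 + f1 w)) := by
    funext w
    rw [e1]
  rw [e2]
  refine inh_dn _ _ _ E fun w => ?_
  rw [e1]
  rfl

private theorem inh_spr (B : W → ℝ) (g : W → Y) (f' : W' →ₗ[ZMod 2] W) (hf' : Injective f')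
    (h : W' → Z) (ch : W' →ₗ[ZMod 2] W' →ₗ[ZMod 2] Z) (hh : IsQM h ch) (x : W)
    {k k1 r r1 : ℕ} {T : ℝ}
    (hk : finrank (ZMod 2) W ≤ finrank (ZMod 2) W' + k1) (hz : finrank (ZMod 2) Z ≤ r1)
    (hQ : SprP B g (k + k1) (r + r1) T) :
    SprP (fun w => B (x + f' w)) (fun w => ((g (x + f' w), h w) : Y × Z)) k r T := by
  intro W1 Z1 _ _ _ _ _ _ f1 hf1 hk1 hr1 w1 h1 c1 hq1
  have e1 : ∀ w, (x + f' w1) + (f' ∘ₗ f1) w = x + f' (w1 + f1 w) := by
    intro w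
    rw [LinearMap.comp_apply, map_add, add_assoc]
  have hfr : finrank (ZMod 2) (Z × Z1) ≤ r + r1 := by
    rw [finrank_prod]
    omega
  have key := hQ W1 (Z × Z1) (f' ∘ₗ f1) (hf'.comp hf1) (by omega) hfr (x + f' w1)
    (fun w => (h (w1 + f1 w), h1 w)) _ ((hh.pull f1 w1).pair hq1)
  have e2 : ∀ w, iv (((g (x + f' w1 + (f' ∘ₗ f1) w), (h (w1 + f1 w), h1 w)) :
      Y × (Z × Z1)) = 0) = iv ((((g (x + f' (w1 + f1 w)), h (w1 + f1 w)), h1 w) :
      (Y × Z) × Z1) = 0) := by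
    intro w
    rw [e1]
    exact inh_iv (inh_assoc _ _ _)
  have e3 : ∀ w, B (x + f' w1 + (f' ∘ₗ f1) w) = B (x + f' (w1 + f1 w)) := by
    intro w
    rw [e1]
  simp only [e2, e3] at key
  exact key

end aux

variable {V : Type} [AddCommGroup V] [Module (ZMod 2) V]
variable (S : Sys V) {W' Z : Type} [AddCommGroup W'] [Module (ZMod 2) W']
    [Fintype W'] [AddCommGroup Z] [Module (ZMod 2) Z] [Fintype Z] (f' : W' →ₗ[ZMod 2] S.W)
    (hf' : Injective f') (h : W' → Z) (c' : W' →ₗ[ZMod 2] W' →ₗ[ZMod 2] (S.Y × Z)) (e : F3)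
    (w0 : S.W) (hq : IsQM (fun w => ((S.g e (w0 + f' w), h w) : S.Y × Z)) c')
    (Ψ : F3 →ₗ[ZMod 2] (S.W × Z))

theorem ref_fn (A : F3 → V → ℝ) (v : F3) (w : W') :
    (ref S f' hf' h c' e w0 hq Ψ).fn A v w = S.fn A v ((Ψ v).1 + f' w) := by
  change A v ((S.t v + S.f (Ψ v).1) + S.f (f' w)) = A v (S.t v + S.f ((Ψ v).1 + f' w))
  rw [map_add, add_assoc]

theorem qd_ref (A : F3 → V → ℝ) (v : F3) {k k1 r r1 σd s : ℕ}
    (hk : finrank (ZMod 2) S.W ≤ finrank (ZMod 2) W' + k1) (hz : finrank (ZMod 2) Z ≤ r1)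
    (hQ : QD (S.fn A v) (S.g v) (k + k1) (r + r1) σd s) :
    QD ((ref S f' hf' h c' e w0 hq Ψ).fn A v) ((ref S f' hf' h c' e w0 hq Ψ).g v) k r σd s := by
  have e1 : (ref S f' hf' h c' e w0 hq Ψ).fn A v = fun w => S.fn A v ((Ψ v).1 + f' w) :=
    funext (ref_fn S f' hf' h c' e w0 hq Ψ A v)
  rw [e1]
  exact inh_qd (S.fn A v) (S.g v) f' hf' (fun w => h w + h 0 + (Ψ v).2) (Ψ v).1 hk hz hQ

theorem spr_ref (A : F3 → V → ℝ) (v : F3) {k k1 r r1 : ℕ} {T : ℝ}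
    (hk : finrank (ZMod 2) S.W ≤ finrank (ZMod 2) W' + k1) (hz : finrank (ZMod 2) Z ≤ r1)
    (hQ : SprP (S.fn A v) (S.g v) (k + k1) (r + r1) T) :
    SprP ((ref S f' hf' h c' e w0 hq Ψ).fn A v) ((ref S f' hf' h c' e w0 hq Ψ).g v) k r T := by
  have e1 : (ref S f' hf' h c' e w0 hq Ψ).fn A v = fun w => S.fn A v ((Ψ v).1 + f' w) :=
    funext (ref_fn S f' hf' h c' e w0 hq Ψ A v)
  rw [e1]
  have h1 := (ref_qm S f' h c' e w0 hq Ψ v).map (LinearMap.snd (ZMod 2) S.Y Z)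
  exact inh_spr (S.fn A v) (S.g v) f' hf' (fun w => h w + h 0 + (Ψ v).2) _ h1 (Ψ v).1 hk hz hQ

end Pool.Agent.H77.PH
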