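import Pool.Agent.H77.PH.LowR
import Pool.Agent.H22.QK.LemR

/-!
# LemRR: from regular pieces of a quadric to all its pieces (about 130 lines)

The proof follows `lemR` in QK/LemR (look there). Induction on `n = finrank Z`. Let
`c = bpair (pb b f) ch` (`(hg.pull f w0).pair hh`).
If `Reg c σ`: `hL` gives `card (Y × Z) * 𝔼 A iv ≤ t`, and with `count_zero` and
`LemRAux.reg_case` (with `finrank Y + n ≤ finrank Y + R`, `card (Y × Z) = 2^(finrank Y + n)`) the
claim follows.
If not, `lowR` (`σ + k ≤ σ + K < σ0`) gives `lY`, `lZ ≠ 0` (so `n ≥ 1`; for `n = 0` this is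
impossible since `Z` is trivial) and `W1`. By `expect_coset` (QK/QLow) both sides are averages over
`v : W` of averages over `x : W1` of the values at `v + x`. If `lY (g (w0 + f v)) + lZ (h v) ≠ 0`
then no point `v + x` satisfies `g = 0` and `h = 0`: both inner averages vanish. Otherwise let
`π : Z →ₗ ker lZ` be a left inverse of the subtype (`LinearMap.exists_leftInverse_of_injective`) and
`h' x = π (h (v + x))`, a quadratic map on `W1` (`IsQM.shift`/`IsQM.pull`, `IsQM.map`), with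
`finrank (ker lZ) = n - 1`. For `x ∈ W1`: `(g (..), h (v+x)) = 0 ↔ (g (..), h' x) = 0`: if `g (..) = 0`
then `lZ (h (v + x)) = 0`, so `h (v + x) ∈ ker lZ` and `h (v + x) = π (h (v + x))`. The induction
hypothesis for `f ∘ₗ W1.subtype`, base point `w0 + f v`, codimension `k + 2 σ`, target `ker lZ`
and the map `h'` gives the inequality of the inner averages (as `(k + 2σ) + (n-1) 2σ ≤ K`).
-/

set_option autoImplicit false

open Finset Function Module
open scoped BigOperators
open Pool.Agent.H77.KM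
open Pool.Agent.H22.QK
open Pool.Agent.H22.QF

namespace Pool.Agent.H77.PH

section

variable {V : Type} [AddCommGroup V] [Module (ZMod 2) V] [Fintype V]
variable {Y : Type} [AddCommGroup Y] [Module (ZMod 2) Y] [Fintype Y]

theorem lemRR (A : V → ℝ) (hA : ∀ x, A x = 0 ∨ A x = 1) {g : V → Y}
    {b : V →ₗ[ZMod 2] V →ₗ[ZMod 2] Y} (hg : IsQM g b) {σ0 K R σ N : ℕ} (hb : Reg b σ0)
    (hN : 1 ≤ N) {t : ℝ} (ht : 0 ≤ t) (h0 : σ + K < σ0) (hL : LevR A g K R σ t)
    (hσ : (2 : ℝ) ^ (finrank (ZMod 2) Y + R) * (1 / 2) ^ σ ≤ 1 / (2 * N)) (n : ℕ) :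
    ∀ (k : ℕ) (W Z : Type) [AddCommGroup W] [Module (ZMod 2) W] [Fintype W]
      [AddCommGroup Z] [Module (ZMod 2) Z] [Fintype Z] (f : W →ₗ[ZMod 2] V),
      Injective f → finrank (ZMod 2) V ≤ finrank (ZMod 2) W + k → finrank (ZMod 2) Z = n →
      n ≤ R → k + n * (2 * σ) ≤ K →
      ∀ (w0 : V) (h : W → Z) (c : W →ₗ[ZMod 2] W →ₗ[ZMod 2] Z), IsQM h c →
        𝔼 w, A (w0 + f w) * iv (((g (w0 + f w), h w) : Y × Z) = 0)
          ≤ (1 + 1 / (N : ℝ)) * t * 𝔼 w, iv (((g (w0 + f w), h w) : Y × Z) = 0) := by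
  sorry

end

end Pool.Agent.H77.PH
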