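import Pool.Agent.H77.PH.Pol
import Pool.Agent.H22.QK.Levels

/-!
# LevelsR: a level where the relative density almost stops growing (about 110 lines)

The proof follows `levels` in QK/Levels (look there), with `HasP`, `LevR` in the place of
`HasPiece`, `LevBd`. Start piece: `W = V`, `Z = PUnit`, `f = id`, `w0 = 0`, `h = 0`; the pair map is
quadratic with polarisation `bpair b 0` and regular (see the header of `Pol`, `dn_punit`;
`Reg.mono` for `σ ≤ σ0`), its density is `dn A g` (`card (Y × PUnit) = card Y`). Upper bound for all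
densities of pieces with at most `R_J = J r` equations, `J = 2 N (d + 2)`:
`card (Y × Z) * 𝔼 A iv ≤ card (Y × Z) * 𝔼 iv ≤ 1 + 2^(finrank Y + R_J) (1/2)^σ ≤ 2`
(`count_zero`).
-/

set_option autoImplicit false

open Finset Function Module
open scoped BigOperators
open Pool.Agent.H77.KM
open Pool.Agent.H22.QK
open Pool.Agent.H22.QF

namespace Pool.Agent.H77.PH

section

variable {V : Type} [AddCommGroup V] [Module (ZMod 2) V] [Fintype V]
variable {Y : Type} [AddCommGroup Y] [Module (ZMod 2) Y] [Fintype Y]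

/-- The whole space is a piece. -/
private theorem hasP_start (A : V → ℝ) {g : V → Y} {b : V →ₗ[ZMod 2] V →ₗ[ZMod 2] Y}
    (hg : IsQM g b) {σ0 σ : ℕ} (hb : Reg b σ0) (h0 : σ ≤ σ0) (k R : ℕ) :
    HasP A g k R σ (dn A g) := by
  refine ⟨V, PUnit, inferInstance, inferInstance, inferInstance, inferInstance, inferInstance,
    inferInstance, LinearMap.id, fun _ _ h => h, Nat.le_add_right _ _, ?_, 0, fun _ => 0,
    b.compr₂ ((LinearEquiv.prodUnique (R := ZMod 2) (M := Y) (M₂ := PUnit)).symm :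
      Y →ₗ[ZMod 2] Y × PUnit), ?_, ?_, ?_⟩
  · rw [Module.finrank_zero_of_subsingleton]
    exact Nat.zero_le _
  · intro x y
    have h := hg x y
    refine Prod.ext ?_ (Subsingleton.elim _ _)
    show g (0 + (x + y)) = g (0 + x) + g (0 + y) + g (0 + 0) + b x y
    rw [zero_add, zero_add, zero_add, zero_add]
    exact h
  · exact (reg_equiv _ b hb).mono h0
  · unfold dn
    have h1 : (Fintype.card (Y × PUnit) : ℝ) = Fintype.card Y := by
      rw [Fintype.card_prod]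
      simp
    rw [h1]
    congr 1
    refine Finset.expect_congr rfl fun w _ => ?_
    show A (0 + w) * iv (((g (0 + w), (0 : PUnit)) : Y × PUnit) = 0) = A w * iv (g w = 0)
    have h2 : (((g w, (0 : PUnit)) : Y × PUnit) = 0) ↔ g w = 0 := by
      rw [Prod.mk_eq_zero]
      exact ⟨fun h => h.1, fun h => ⟨h, rfl⟩⟩
    rw [zero_add]
    by_cases h : g w = 0
    · rw [iv_pos h, iv_pos (h2.2 h)]
    · rw [iv_neg h, iv_neg (fun h' => h (h2.1 h'))]

omit [Fintype V] in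
/-- All densities are at most `1 + 2^(dim Y + R) (1/2)^σ`. -/
private theorem hasP_le {A : V → ℝ} (hA : ∀ x, A x = 0 ∨ A x = 1) {g : V → Y} {k R σ : ℕ} {t : ℝ}
    (h : HasP A g k R σ t) : t ≤ 1 + (2 : ℝ) ^ (finrank (ZMod 2) Y + R) * (1 / 2) ^ σ := by
  obtain ⟨W, Z, i1, i2, i3, i4, i5, i6, f, -, -, hR, w0, h, c, hg, hb, rfl⟩ := h
  have hc := count_zero hg hb
  unfold dn
  have hE : 𝔼 w, A (w0 + f w) * iv (((g (w0 + f w), h w) : Y × Z) = 0) ≤
      𝔼 w, iv (((g (w0 + f w), h w) : Y × Z) = 0) := by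
    refine Finset.expect_le_expect fun w _ => ?_
    have h0 := iv_nonneg (((g (w0 + f w), h w) : Y × Z) = 0)
    rcases hA (w0 + f w) with h | h <;> rw [h] <;> linarith
  have hcard : (Fintype.card (Y × Z) : ℝ) = 2 ^ finrank (ZMod 2) (Y × Z) := by
    rw [Module.card_eq_pow_finrank (K := ZMod 2) (V := Y × Z), ZMod.card]
    push_cast
    rfl
  have hpos : (0 : ℝ) < Fintype.card (Y × Z) := by rw [hcard]; positivity
  have hle : (Fintype.card (Y × Z) : ℝ) ≤ 2 ^ (finrank (ZMod 2) Y + R) := by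
    rw [hcard, Module.finrank_prod]
    exact pow_le_pow_right₀ (by norm_num) (by omega)
  have h2 : 𝔼 w, iv (((g (w0 + f w), h w) : Y × Z) = 0) ≤
      1 / (Fintype.card (Y × Z) : ℝ) + (1 / 2) ^ σ := by
    have := (abs_le.mp hc).2
    linarith
  calc (Fintype.card (Y × Z) : ℝ) * 𝔼 w, A (w0 + f w) * iv (((g (w0 + f w), h w) : Y × Z) = 0)
      ≤ Fintype.card (Y × Z) * (1 / (Fintype.card (Y × Z) : ℝ) + (1 / 2) ^ σ) :=
        mul_le_mul_of_nonneg_left (hE.trans h2) hpos.le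
    _ = 1 + Fintype.card (Y × Z) * (1 / 2) ^ σ := by
        rw [mul_add, mul_one_div_cancel hpos.ne']
    _ ≤ 1 + (2 : ℝ) ^ (finrank (ZMod 2) Y + R) * (1 / 2) ^ σ := by
        have := mul_le_mul_of_nonneg_right hle (show (0 : ℝ) ≤ (1 / 2) ^ σ by positivity)
        linarith

theorem levelsR (A : V → ℝ) (hA : ∀ x, A x = 0 ∨ A x = 1) {g : V → Y}
    {b : V →ₗ[ZMod 2] V →ₗ[ZMod 2] Y} (hg : IsQM g b) {σ0 d N κ r σ : ℕ} (hb : Reg b σ0)
    (h0 : σ ≤ σ0) (hN : 1 ≤ N) (hd : (1 / 2 : ℝ) ^ d ≤ dn A g)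
    (hσ : (2 : ℝ) ^ (finrank (ZMod 2) Y + phJ N d * r) * (1 / 2) ^ σ ≤ 1 / (8 * N)) :
    ∃ j < phJ N d, ∃ t : ℝ, (1 / 2 : ℝ) ^ d ≤ t ∧ HasP A g (j * κ) (j * r) σ t ∧
      LevR A g ((j + 1) * κ) ((j + 1) * r) σ ((1 + 1 / (2 * N : ℝ)) * t) := by
  by_contra hcon
  push Not at hcon
  have hN' : (1 : ℝ) ≤ N := by exact_mod_cast hN
  have hq : (1 : ℝ) ≤ 1 + 1 / (2 * N : ℝ) := by
    have : (0 : ℝ) ≤ 1 / (2 * N : ℝ) := by positivity
    linarith
  have hdp : (0 : ℝ) < (1 / 2 : ℝ) ^ d := by positivity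
  have key : ∀ j, j ≤ phJ N d → ∃ t : ℝ,
      (1 + 1 / (2 * N : ℝ)) ^ j * (1 / 2 : ℝ) ^ d ≤ t ∧ HasP A g (j * κ) (j * r) σ t := by
    intro j
    induction j with
    | zero =>
      intro _
      refine ⟨dn A g, ?_, hasP_start A hg hb h0 _ _⟩
      simpa using hd
    | succ j ih =>
      intro hj
      obtain ⟨t, ht, hp⟩ := ih (by omega)
      have ht0 : (1 / 2 : ℝ) ^ d ≤ t := by
        refine le_trans ?_ ht
        have := mul_le_mul_of_nonneg_right (one_le_pow₀ hq (n := j)) hdp.le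
        linarith
      have hno := hcon j (by omega) t ht0 hp
      unfold LevR at hno
      push Not at hno
      obtain ⟨W, Z, i1, i2, i3, i4, i5, i6, f, hf, hW, hR, w0, h, c, hg', hb', hlt⟩ := hno
      refine ⟨_, ?_, W, Z, i1, i2, i3, i4, i5, i6, f, hf, hW, hR, w0, h, c, hg', hb', rfl⟩
      refine le_trans ?_ hlt.le
      calc (1 + 1 / (2 * N : ℝ)) ^ (j + 1) * (1 / 2 : ℝ) ^ d
          = (1 + 1 / (2 * N : ℝ)) * ((1 + 1 / (2 * N : ℝ)) ^ j * (1 / 2 : ℝ) ^ d) := by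
            rw [pow_succ]; ring
        _ ≤ (1 + 1 / (2 * N : ℝ)) * t := mul_le_mul_of_nonneg_left ht (by linarith)
  obtain ⟨t, ht, hp⟩ := key _ le_rfl
  have hup := hasP_le hA hp
  have hB : (2 : ℝ) ≤ (1 + 1 / (2 * N : ℝ)) ^ (2 * N) := by
    have h1 := one_add_mul_le_pow (a := 1 / (2 * N : ℝ))
      (by have : (0 : ℝ) ≤ 1 / (2 * N : ℝ) := by positivity
          linarith) (2 * N)
    have h2 : ((2 * N : ℕ) : ℝ) * (1 / (2 * N : ℝ)) = 1 := by
      push_cast
      have : (2 * N : ℝ) ≠ 0 := by positivity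
      field_simp
    linarith
  have hB2 : (2 : ℝ) ^ (d + 2) ≤ (1 + 1 / (2 * N : ℝ)) ^ phJ N d := by
    unfold phJ
    rw [pow_mul]
    exact pow_le_pow_left₀ (by norm_num) hB _
  have h4 : (4 : ℝ) ≤ t := by
    refine le_trans ?_ ht
    have h5 := mul_le_mul_of_nonneg_right hB2 hdp.le
    have h6 : (2 : ℝ) ^ (d + 2) * (1 / 2 : ℝ) ^ d = 4 := by
      rw [pow_add, mul_right_comm, ← mul_pow]
      norm_num
    linarith
  have h8 : 1 / (8 * N : ℝ) ≤ 1 := by
    rw [div_le_one (by positivity)]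
    linarith
  linarith

end

end Pool.Agent.H77.PH
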