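import Pool.Agent.H77.PH.Defs

/-!
# LowR: a combination of low rank involves the further equations (about 80 lines)

PROOF. `lowrank` (QK/QLow) for the pair map gives `l ≠ 0` on `Y × Z` and `W1` of codimension at most
`2 σ` with `l (q (v + k)) = l (q v)` for `q w = (g (w0 + f w), h w)`, `k ∈ W1`. Put
`lY = l ∘ inl`, `lZ = l ∘ inr`; `l (y, z) = lY y + lZ z`. This is the claim, except `lZ ≠ 0`.
Suppose `lZ = 0`; then `lY ≠ 0` and `lY (g (w0 + f (v + k))) = lY (g (w0 + f v))` for all `v` and all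
`k ∈ W1`. With `hg.pull f w0`: `lY (b (f v) (f k)) = lY (g (w0 + f (v+k))) + lY (g (w0 + f v))
+ lY (g (w0 + f k)) + lY (g w0) = 0` (the last two cancel by the case `v = 0`). So `W1` is contained
in `ker (bl (pb b f) lY)` (symmetry, `IsQM.symm`), which has dimension at least
`finrank W - 2 σ`. By `Reg.restrict` (QK/QRes; `k ≤ σ0`) `Reg (pb b f) (σ0 - k)`, so
`finrank ker + 2 (σ0 - k) ≤ finrank W`. Hence `σ0 - k ≤ σ`, a contradiction to `h0`.
-/

set_option autoImplicit false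

open Finset Function Module
open scoped BigOperators
open Pool.Agent.H77.KM
open Pool.Agent.H22.QK
open Pool.Agent.H22.QF

namespace Pool.Agent.H77.PH

section

variable {V : Type} [AddCommGroup V] [Module (ZMod 2) V] [Fintype V]
variable {Y : Type} [AddCommGroup Y] [Module (ZMod 2) Y] [Fintype Y]

theorem lowR {g : V → Y} {b : V →ₗ[ZMod 2] V →ₗ[ZMod 2] Y} (hg : IsQM g b) {σ0 σ k : ℕ}
    (hb : Reg b σ0) (h0 : σ + k < σ0) {W Z : Type} [AddCommGroup W] [Module (ZMod 2) W]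
    [Fintype W] [AddCommGroup Z] [Module (ZMod 2) Z] [Fintype Z] (f : W →ₗ[ZMod 2] V)
    (hf : Injective f) (hk : finrank (ZMod 2) V ≤ finrank (ZMod 2) W + k) (w0 : V) {h : W → Z}
    {c : W →ₗ[ZMod 2] W →ₗ[ZMod 2] (Y × Z)}
    (hc : IsQM (fun w => ((g (w0 + f w), h w) : Y × Z)) c) (hn : ¬ Reg c σ) :
    ∃ (lY : Dual (ZMod 2) Y) (lZ : Dual (ZMod 2) Z), lZ ≠ 0 ∧
      ∃ W1 : Submodule (ZMod 2) W, finrank (ZMod 2) W ≤ finrank (ZMod 2) W1 + 2 * σ ∧
        ∀ v, ∀ k ∈ W1, lY (g (w0 + f (v + k))) + lZ (h (v + k))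
          = lY (g (w0 + f v)) + lZ (h v) := by
  obtain ⟨l, hl, W1, hW1, hinv⟩ := lowrank hc hn
  have hsplit : ∀ (y : Y) (z : Z), l (y, z)
      = (l ∘ₗ LinearMap.inl (ZMod 2) Y Z) y + (l ∘ₗ LinearMap.inr (ZMod 2) Y Z) z := by
    intro y z
    rw [LinearMap.comp_apply, LinearMap.comp_apply, LinearMap.inl_apply, LinearMap.inr_apply,
      ← map_add, Prod.mk_add_mk, add_zero, zero_add]
  have hinv2 : ∀ v, ∀ k ∈ W1,
      (l ∘ₗ LinearMap.inl (ZMod 2) Y Z) (g (w0 + f (v + k)))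
        + (l ∘ₗ LinearMap.inr (ZMod 2) Y Z) (h (v + k))
      = (l ∘ₗ LinearMap.inl (ZMod 2) Y Z) (g (w0 + f v))
        + (l ∘ₗ LinearMap.inr (ZMod 2) Y Z) (h v) := by
    intro v k' hk'
    have h1 := hinv v k' hk'
    rw [hsplit, hsplit] at h1
    exact h1
  refine ⟨l ∘ₗ LinearMap.inl (ZMod 2) Y Z, l ∘ₗ LinearMap.inr (ZMod 2) Y Z, ?_, W1, hW1, hinv2⟩
  intro hz
  have hY : l ∘ₗ LinearMap.inl (ZMod 2) Y Z ≠ 0 := by
    intro hy
    apply hl
    refine LinearMap.ext ?_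
    rintro ⟨y, z⟩
    rw [hsplit, hy, hz]
    simp
  generalize hlY : l ∘ₗ LinearMap.inl (ZMod 2) Y Z = lY at *
  have hinv3 : ∀ v, ∀ k ∈ W1, lY (g (w0 + f (v + k))) = lY (g (w0 + f v)) := by
    intro v k' hk'
    have h1 := hinv2 v k' hk'
    rw [hz] at h1
    simpa using h1
  have hpull := hg.pull f w0
  have hker : W1 ≤ LinearMap.ker (bl (pb b f) lY) := by
    intro k' hk'
    rw [LinearMap.mem_ker]
    refine LinearMap.ext fun v => ?_
    rw [bl_apply, LinearMap.zero_apply, hpull.symm k' v]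
    have e := congrArg lY (hpull v k')
    have e1 : lY (g (w0 + f (v + k'))) = lY (g (w0 + f v)) := hinv3 v k' hk'
    have e2 : lY (g (w0 + f k')) = lY (g (w0 + f 0)) := by
      have := hinv3 0 k' hk'
      rwa [zero_add] at this
    have e3 : lY (g (w0 + f (v + k'))) = lY (g (w0 + f v)) + lY (g (w0 + f k'))
        + lY (g (w0 + f 0)) + lY (pb b f v k') := by
      rw [← map_add, ← map_add, ← map_add]
      exact e
    rw [e1, e2, add_assoc (lY (g (w0 + f v))), ZModModule.add_self, add_zero] at e3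
    exact (add_eq_left.1 e3.symm)
  have hfin := Submodule.finrank_mono hker
  have hreg := hb.restrict f hf hk (by omega : k ≤ σ0) lY hY
  omega

end

end Pool.Agent.H77.PH
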