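import Pool.Agent.H77.PH.PhStep

/-!
# Main: the seven phases

`phases`: a base quadric on which all sets are dense on all further pieces gives a system of seven
spread sets.
-/

set_option autoImplicit false

open Finset Function Module
open scoped BigOperators
open Pool.Agent.H77.KM
open Pool.Agent.H22.QK
open Pool.Agent.H22.QF

namespace Pool.Agent.H77.PH

variable {V : Type} [AddCommGroup V] [Module (ZMod 2) V] [Fintype V]

private theorem sigma_le (N s k r σ i : ℕ) : σ ≤ (phKS N s k r σ i).2 := by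
  induction i with
  | zero => exact le_rfl
  | succ i ih =>
    show σ ≤ (phKS N s k r σ i).2 +
      phC N s (phKS N s k r σ i).1 (phR N s r i) (phKS N s k r σ i).2 + 1
    omega

omit [Fintype V] in
private theorem st_weak {A : F3 → V → ℝ} {S : Sys V} {P : Finset F3}
    {k r σ σd s K R K' R' : ℕ} {δ : ℝ} (h : St A S P k r σ σd s K R δ) (hK : K ≤ K')
    (hR : R ≤ R') : St A S P k r σ σd s K' R' δ :=
  ⟨h.reg, by have := h.dimW; omega, by have := h.dimY; omega, h.qd, h.spr⟩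

private theorem card_ne : (Finset.univ.erase (0 : F3)).card = 7 := by
  rw [Finset.card_erase_of_mem (Finset.mem_univ _), Finset.card_univ]
  rfl

private theorem iterate {A : F3 → V → ℝ} (hA : ∀ v x, A v x = 0 ∨ A v x = 1)
    {N s k r σ σd : ℕ} (hN : 1 ≤ N) (hd : σd ≤ σ) (i : ℕ) :
    ∀ (S : Sys V) (P : Finset F3) (K R : ℕ) (δ : ℝ), P.card + i = 7 → 1 / (N : ℝ) ≤ δ →
      (2 : ℝ) ^ (R + phR N s r i) * (1 / 2) ^ σ ≤ 1 / (8 * N) →
      St A S P (phKS N s k r σ i).1 (phR N s r i) (phKS N s k r σ i).2 σd s K R δ →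
      ∃ S' : Sys V, St A S' (Finset.univ.erase 0) k r σ σd s (K + (phKS N s k r σ i).1)
        (R + phR N s r i) (11 ^ i * δ) := by
  induction i with
  | zero =>
    intro S P K R δ hP hδ hsize hS
    have hPe : P = Finset.univ.erase 0 := by
      refine Finset.eq_of_subset_of_card_le (fun v hv => ?_) ?_
      · exact Finset.mem_erase.2 ⟨(hS.spr v hv).1, Finset.mem_univ _⟩
      · rw [card_ne]
        omega
    subst hPe
    refine ⟨S, ?_⟩
    rw [pow_zero, one_mul]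
    exact st_weak hS (Nat.le_add_right _ _) (Nat.le_add_right _ _)
  | succ i ih =>
    intro S P K R δ hP hδ hsize hS
    obtain ⟨e, he, heP⟩ := Finset.exists_mem_notMem_of_card_lt_card
      (s := P) (t := Finset.univ.erase (0 : F3)) (by rw [card_ne]; omega)
    have he0 : e ≠ 0 := (Finset.mem_erase.1 he).1
    have hσi := sigma_le N s k r σ i
    have hδ0 : 0 ≤ δ := le_trans (by positivity) hδ
    have hr : phR N s r (i + 1) = phR N s r i + phJ N s * phR N s r i := rfl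
    have hpow : (1 / 2 : ℝ) ^ (phKS N s k r σ i).2 ≤ (1 / 2) ^ σ :=
      pow_le_pow_of_le_one (by norm_num) (by norm_num) hσi
    have hsz : (2 : ℝ) ^ (R + phJ N s * phR N s r i) * (1 / 2) ^ (phKS N s k r σ i).2
        ≤ 1 / (8 * N) := by
      refine le_trans ?_ hsize
      refine mul_le_mul ?_ hpow (by positivity) (by positivity)
      refine pow_le_pow_right₀ (by norm_num) ?_
      rw [hr]
      omega
    obtain ⟨S', hS'⟩ := ph_step hA S P (k := (phKS N s k r σ i).1) (r := phR N s r i)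
      (σ := (phKS N s k r σ i).2) (σ' := (phKS N s k r σ (i + 1)).2) hN hδ e he0 heP
      (by omega) hS (by
        show _ < (phKS N s k r σ i).2 +
          phC N s (phKS N s k r σ i).1 (phR N s r i) (phKS N s k r σ i).2 + 1
        omega) (le_trans hd hσi) hsz
    obtain ⟨S2, hS2⟩ := ih S' (insert e P) _ _ (11 * δ)
      (by rw [Finset.card_insert_of_notMem heP]; omega) (by linarith)
      (by
        refine le_trans (le_of_eq ?_) hsize
        congr 2
        rw [hr]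
        ring) hS'
    refine ⟨S2, ?_⟩
    have e1 : K + phC N s (phKS N s k r σ i).1 (phR N s r i) (phKS N s k r σ i).2
        + (phKS N s k r σ i).1 = K + (phKS N s k r σ (i + 1)).1 := by
      show _ = K + ((phKS N s k r σ i).1 +
        phC N s (phKS N s k r σ i).1 (phR N s r i) (phKS N s k r σ i).2)
      ring
    have e2 : R + phJ N s * phR N s r i + phR N s r i = R + phR N s r (i + 1) := by
      rw [hr]
      ring
    have e3 : (11 : ℝ) ^ i * (11 * δ) = 11 ^ (i + 1) * δ := by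
      rw [pow_succ]
      ring
    rw [e1, e2, e3] at hS2
    exact hS2

private theorem final_num {N M : ℕ} (hM : 1 ≤ M) (hN : 40000000 * M ≤ N) {T D : ℝ} (hT : 0 < T)
    (h : (1 - 11 ^ 7 * (1 / (N : ℝ))) * T ≤ D) : T ≤ (1 + 1 / (M : ℝ)) * D := by
  have hM' : (1 : ℝ) ≤ M := by exact_mod_cast hM
  have hN' : (40000000 : ℝ) * M ≤ N := by exact_mod_cast hN
  have hMp : (0 : ℝ) < M := by linarith
  have hNp : (0 : ℝ) < N := by linarith
  have h1 : (11 : ℝ) ^ 7 * (1 / (N : ℝ)) ≤ 1 / 2 * (1 / (M : ℝ)) := by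
    rw [mul_one_div, mul_one_div, div_le_div_iff₀ hNp hMp]
    norm_num
    linarith
  have hx0 : (0 : ℝ) < 1 / (M : ℝ) := by positivity
  have hx1 : 1 / (M : ℝ) ≤ 1 := by
    rw [div_le_one hMp]
    exact hM'
  have h2 : (1 - 1 / 2 * (1 / (M : ℝ))) * T ≤ D := by
    refine le_trans ?_ h
    exact mul_le_mul_of_nonneg_right (by linarith) hT.le
  have h3 : 1 ≤ (1 + 1 / (M : ℝ)) * (1 - 1 / 2 * (1 / (M : ℝ))) := by
    nlinarith [mul_pos hx0 hx0]
  calc T = 1 * T := (one_mul T).symm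
    _ ≤ (1 + 1 / (M : ℝ)) * (1 - 1 / 2 * (1 / (M : ℝ))) * T :=
        mul_le_mul_of_nonneg_right h3 hT.le
    _ = (1 + 1 / (M : ℝ)) * ((1 - 1 / 2 * (1 / (M : ℝ))) * T) := by ring
    _ ≤ (1 + 1 / (M : ℝ)) * D := mul_le_mul_of_nonneg_left h2 (by linarith)

theorem phases {A : F3 → V → ℝ} (hA : ∀ v x, A v x = 0 ∨ A v x = 1)
    {W0 Y0 : Type} [AddCommGroup W0] [Module (ZMod 2) W0] [Fintype W0] [AddCommGroup Y0]
    [Module (ZMod 2) Y0] [Fintype Y0] (f0 : W0 →ₗ[ZMod 2] V) (hf0 : Injective f0)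
    {G : W0 → Y0} {b : W0 →ₗ[ZMod 2] W0 →ₗ[ZMod 2] Y0} (hG : IsQM G b) (hG0 : G 0 = 0)
    {N s k r σ σd K R M : ℕ} (hM : 1 ≤ M) (hN : 40000000 * M ≤ N)
    (hreg : Reg b (phKS N s k r σ 7).2)
    (hW : finrank (ZMod 2) V ≤ finrank (ZMod 2) W0 + K) (hY : finrank (ZMod 2) Y0 ≤ R)
    (hQ : ∀ v, v ≠ 0 → QDense (fun w => A v (f0 w)) G (phKS N s k r σ 7).1 (phR N s r 7) σd s)
    (hd : σd ≤ σ)
    (hsize : (2 : ℝ) ^ (R + phR N s r 7) * (1 / 2) ^ σ ≤ 1 / (8 * N)) :
    ∃ S : Sys V, finrank (ZMod 2) V ≤ finrank (ZMod 2) S.W + (K + (phKS N s k r σ 7).1) ∧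
      finrank (ZMod 2) S.Y ≤ R + phR N s r 7 ∧ Reg S.c σ ∧
      ∀ v, v ≠ 0 → (1 / 2 : ℝ) ^ s ≤ Fintype.card S.Y *
          𝔼 w, A v (S.t v + S.f w) * iv (S.g v w = 0) ∧
        SprV (fun w => A v (S.t v + S.f w) * iv (S.g v w = 0)) (S.g v) k r
          ((1 + 1 / (M : ℝ)) * (Fintype.card S.Y *
            𝔼 w, A v (S.t v + S.f w) * iv (S.g v w = 0))) := by
  have hM' : (1 : ℝ) ≤ M := by exact_mod_cast hM
  have hN1 : 1 ≤ N := by omega
  let S0 : Sys V :=
    { W := W0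
      Y := Y0
      t := 0
      f := f0
      g := fun _ => G
      c := b
      inj := hf0
      qm := fun _ => hG
      sum := fun φ => qsum0 hG hG0 φ }
  have hfn : ∀ v, S0.fn A v = fun w => A v (f0 w) := by
    intro v
    funext w
    show A v ((0 : F3 →ₗ[ZMod 2] V) v + f0 w) = A v (f0 w)
    rw [LinearMap.zero_apply, zero_add]
  have hS0 : St A S0 ∅ (phKS N s k r σ 7).1 (phR N s r 7) (phKS N s k r σ 7).2 σd s K R
      (1 / (N : ℝ)) := by
    refine ⟨hreg, hW, hY, fun v hv => ?_, fun v hv => absurd hv (Finset.notMem_empty v)⟩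
    rw [hfn]
    exact (qd_iff _ _ _ _ _ _).2 (hQ v hv)
  obtain ⟨S, hS⟩ := iterate hA hN1 hd 7 S0 ∅ K R (1 / (N : ℝ)) (by simp) le_rfl hsize hS0
  refine ⟨S, hS.dimW, hS.dimY, hS.reg, fun v hv => ?_⟩
  have hdn : (1 / 2 : ℝ) ^ s ≤ dn (S.fn A v) (S.g v) :=
    dn_punit (S.qm v) (hS.reg.mono hd) (hS.qd v hv)
  refine ⟨hdn, ?_⟩
  obtain ⟨-, T, hT, hspr, hle⟩ := hS.spr v (Finset.mem_erase.2 ⟨hv, Finset.mem_univ _⟩)
  have hT2 : T ≤ (1 + 1 / (M : ℝ)) * dn (S.fn A v) (S.g v) := final_num hM hN hT hle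
  have hV := (spr_iff _ _ _ _ _).1 hspr
  intro W1 Y1 _ _ _ _ _ _ f1 hf1 hW1 hY1 w1 h1 c1 hc1
  refine le_trans (hV W1 Y1 f1 hf1 hW1 hY1 w1 h1 c1 hc1) ?_
  refine mul_le_mul_of_nonneg_right hT2 ?_
  exact Finset.expect_nonneg fun w _ => mul_nonneg (iv_nonneg _) (iv_nonneg _)

end Pool.Agent.H77.PH
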