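import Pool.Agent.H77.PH.LemRR
import Pool.Agent.H77.PH.LevelsR

/-!
# MaxR: a piece of almost maximal relative density is spread (about 140 lines)

The proof follows `maxpiece` in QK/MaxPiece (look there). `J = phJ N d`,
`κ1 = κ + J r (2σ+1)`, so `phC N d κ r σ = J κ1`. Use `levelsR` with `κ1` in the place of `κ`: a piece
`(W, Z, f, w0, h, c)` of level `j < J` with density `t`. For `SprP`: a piece of `W` given by
`f1 : W1 → W` (codimension at most `κ`), `w1`, `h1 : W1 → Z1`, `finrank Z1 ≤ r`, is the piece of `V`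
given by `f ∘ₗ f1`, base point `w0 + f w1`, and the further equations
`w ↦ (h (w1 + f1 w), h1 w) ∈ Z × Z1` (quadratic: `h` is quadratic, the second component of the pair,
`IsQM.map` with `LinearMap.snd`), codimension at most `j κ1 + κ`, number of equations at most
`j r + r`. `lemRR` with `4 N` in the place of `N`, `K = (j+1) κ1 ≤ phC`, `R = (j+1) r` and
`(1+1/(4N)) (1+1/(2N)) ≤ 1 + 1/N`. The conditions `((g, h), h1) = 0` and `(g, (h, h1)) = 0` are
equivalent (`Prod.mk_eq_zero`).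
-/

set_option autoImplicit false

open Finset Function Module
open scoped BigOperators
open Pool.Agent.H77.KM
open Pool.Agent.H22.QK
open Pool.Agent.H22.QF

namespace Pool.Agent.H77.PH

section

variable {V : Type} [AddCommGroup V] [Module (ZMod 2) V] [Fintype V]
variable {Y : Type} [AddCommGroup Y] [Module (ZMod 2) Y] [Fintype Y]

private lemma maxR_num {N : ℕ} (hN : 1 ≤ N) :
    (1 + 1 / ((4 * N : ℕ) : ℝ)) * (1 + 1 / (2 * N : ℝ)) ≤ 1 + 1 / (N : ℝ) := by
  have hN' : (1 : ℝ) ≤ N := by exact_mod_cast hN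
  have hx : 1 / (N : ℝ) ≤ 1 := by
    rw [div_le_one (by linarith)]; exact hN'
  have hx0 : 0 < 1 / (N : ℝ) := by positivity
  have e1 : 1 / ((4 * N : ℕ) : ℝ) = 1 / 4 * (1 / (N : ℝ)) := by
    push_cast; field_simp
  have e2 : 1 / (2 * N : ℝ) = 1 / 2 * (1 / (N : ℝ)) := by field_simp
  rw [e1, e2]
  nlinarith [mul_pos hx0 hx0]

theorem maxR (A : V → ℝ) (hA : ∀ x, A x = 0 ∨ A x = 1) {g : V → Y}
    {b : V →ₗ[ZMod 2] V →ₗ[ZMod 2] Y} (hg : IsQM g b) {σ0 d N κ r σ : ℕ} (hb : Reg b σ0)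
    (h0 : σ + phC N d κ r σ < σ0) (hN : 1 ≤ N) (hd : (1 / 2 : ℝ) ^ d ≤ dn A g)
    (hσ : (2 : ℝ) ^ (finrank (ZMod 2) Y + phJ N d * r) * (1 / 2) ^ σ ≤ 1 / (8 * N)) :
    ∃ (W Z : Type) (_ : AddCommGroup W) (_ : Module (ZMod 2) W) (_ : Fintype W)
      (_ : AddCommGroup Z) (_ : Module (ZMod 2) Z) (_ : Fintype Z) (f : W →ₗ[ZMod 2] V),
      Injective f ∧ finrank (ZMod 2) V ≤ finrank (ZMod 2) W + phC N d κ r σ ∧
      finrank (ZMod 2) Z ≤ phJ N d * r ∧
      ∃ (w0 : V) (h : W → Z) (c : W →ₗ[ZMod 2] W →ₗ[ZMod 2] (Y × Z)),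
        IsQM (fun w => ((g (w0 + f w), h w) : Y × Z)) c ∧ Reg c σ ∧
        (1 / 2 : ℝ) ^ d ≤ dn (fun w => A (w0 + f w)) (fun w => ((g (w0 + f w), h w) : Y × Z)) ∧
        SprP (fun w => A (w0 + f w)) (fun w => ((g (w0 + f w), h w) : Y × Z)) κ r
          ((1 + 1 / (N : ℝ)) *
            dn (fun w => A (w0 + f w)) (fun w => ((g (w0 + f w), h w) : Y × Z))) := by
  have hC : phC N d κ r σ = phJ N d * (κ + phJ N d * r * (2 * σ + 1)) := rfl
  rw [hC] at h0 ⊢
  obtain ⟨j, hj, t, hdt, hpiece, hlev⟩ := levelsR A hA hg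
    (κ := κ + phJ N d * r * (2 * σ + 1)) hb (by omega) hN hd hσ
  generalize hJ : phJ N d = J at *
  obtain ⟨W, Z, iW, mW, fW, iZ, mZ, fZ, f, hf, hW, hZ, w0, h, c, hc, hcR, ht⟩ := hpiece
  have hj1 : j ≤ J := hj.le
  refine ⟨W, Z, iW, mW, fW, iZ, mZ, fZ, f, hf, ?_, ?_, w0, h, c, hc, hcR, ?_, ?_⟩
  · refine le_trans hW (Nat.add_le_add_left ?_ _)
    exact Nat.mul_le_mul_right _ hj1
  · exact le_trans hZ (Nat.mul_le_mul_right _ hj1)
  · rw [ht]; exact hdt
  · rw [ht]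
    intro W1 Z1 iW1 mW1 fW1 iZ1 mZ1 fZ1 f1 hf1 hW1 hZ1 w1 h1 c1 hh
    have ht0 : 0 ≤ t := le_trans (by positivity) hdt
    have ht' : 0 ≤ (1 + 1 / (2 * N : ℝ)) * t := by positivity
    have hσ' : (2 : ℝ) ^ (finrank (ZMod 2) Y + (j + 1) * r) * (1 / 2) ^ σ
        ≤ 1 / (2 * ((4 * N : ℕ) : ℝ)) := by
      refine le_trans (mul_le_mul_of_nonneg_right ?_ (by positivity)) (le_trans hσ ?_)
      · exact pow_le_pow_right₀ (by norm_num)
          (Nat.add_le_add_left (Nat.mul_le_mul_right _ (by omega)) _)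
      · apply le_of_eq
        push_cast
        ring
    have hcod : finrank (ZMod 2) V ≤ finrank (ZMod 2) W1
        + (j * (κ + J * r * (2 * σ + 1)) + κ) := by omega
    have hfin : finrank (ZMod 2) (Z × Z1) ≤ (j + 1) * r := by
      rw [Module.finrank_prod]
      have : (j + 1) * r = j * r + r := by ring
      omega
    have hK : j * (κ + J * r * (2 * σ + 1)) + κ
        + finrank (ZMod 2) (Z × Z1) * (2 * σ)
        ≤ (j + 1) * (κ + J * r * (2 * σ + 1)) := by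
      have h1 : finrank (ZMod 2) (Z × Z1) * (2 * σ) ≤ J * r * (2 * σ + 1) := by
        refine Nat.mul_le_mul (le_trans hfin (Nat.mul_le_mul_right _ (by omega))) (by omega)
      have h2 : (j + 1) * (κ + J * r * (2 * σ + 1))
          = j * (κ + J * r * (2 * σ + 1)) + κ + J * r * (2 * σ + 1) := by ring
      omega
    have h0' : σ + (j + 1) * (κ + J * r * (2 * σ + 1)) < σ0 := by
      have h3 : (j + 1) * (κ + J * r * (2 * σ + 1)) ≤ J * (κ + J * r * (2 * σ + 1)) :=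
        Nat.mul_le_mul_right _ (by omega)
      omega
    have hq : IsQM (fun w => h w) _ := hc.map (LinearMap.snd (ZMod 2) Y Z)
    have key := lemRR A hA hg (K := (j + 1) * (κ + J * r * (2 * σ + 1)))
      (R := (j + 1) * r) (σ := σ) (N := 4 * N) hb (by omega) ht' h0' hlev hσ'
      (finrank (ZMod 2) (Z × Z1))
      (j * (κ + J * r * (2 * σ + 1)) + κ) W1 (Z × Z1) (f ∘ₗ f1)
      (hf.comp hf1) hcod rfl hfin hK (w0 + f w1) (fun w => (h (w1 + f1 w), h1 w))
      _ ((hq.pull f1 w1).pair hh)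
    have e3 : ∀ w : W1, w0 + f w1 + (f ∘ₗ f1) w = w0 + f (w1 + f1 w) := by
      intro w
      rw [map_add, LinearMap.comp_apply, add_assoc]
    have e2 : ∀ w : W1, iv (((g (w0 + f w1 + (f ∘ₗ f1) w),
          (fun w => (h (w1 + f1 w), h1 w)) w) : Y × (Z × Z1)) = 0)
        = iv ((((g (w0 + f (w1 + f1 w)), h (w1 + f1 w)) : Y × Z), h1 w) = (0 : (Y × Z) × Z1)) := by
      intro w
      refine iv_congr ?_
      rw [e3]
      simp only [Prod.mk_eq_zero]
      exact (and_assoc).symm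
    have e1 : ∀ w : W1, A (w0 + f w1 + (f ∘ₗ f1) w) * iv (((g (w0 + f w1 + (f ∘ₗ f1) w),
          (fun w => (h (w1 + f1 w), h1 w)) w) : Y × (Z × Z1)) = 0)
        = A (w0 + f (w1 + f1 w)) *
          iv ((((g (w0 + f (w1 + f1 w)), h (w1 + f1 w)) : Y × Z), h1 w) = (0 : (Y × Z) × Z1)) := by
      intro w
      rw [e2, e3]
    rw [Finset.expect_congr rfl (fun w _ => e1 w), Finset.expect_congr rfl (fun w _ => e2 w)]
      at key
    refine le_trans key ?_
    refine mul_le_mul_of_nonneg_right ?_ (Finset.expect_nonneg (fun w _ => iv_nonneg _))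
    rw [← mul_assoc]
    exact mul_le_mul_of_nonneg_right (maxR_num hN) ht0

end

end Pool.Agent.H77.PH
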