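import Mathlib

/-!
# Pick: a good choice by averaging (about 50 lines, Mathlib only)

PROOF. Put `F ω = ∑ i ∈ P, ((1 + ε) - D ω i / T i)`; all terms are nonnegative (`hup`). The average of
`F` over `ω` is at most `|P| (ε + δ) ≤ 6 (ε + δ)` (`havg`), so some `ω` has `F ω ≤ 6 (ε + δ)`
(`Finset.exists_le_of_expect_le`-style, or by contradiction with `Finset.expect_lt_expect`). Every
single term is at most `F ω` (`Finset.single_le_sum`), so
`D ω i ≥ (1 + ε - 6 ε - 6 δ) T i ≥ (1 - 11 δ) T i` because `ε ≤ δ`, `0 ≤ ε`.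
-/

set_option autoImplicit false

open Finset Function Module
open scoped BigOperators

namespace Pool.Agent.H77.PH

theorem pick {Ω ι : Type} [Fintype Ω] [Nonempty Ω] (P : Finset ι) (hP : P.card ≤ 6)
    (D : Ω → ι → ℝ) (T : ι → ℝ) (hT : ∀ i ∈ P, 0 < T i) {ε δ : ℝ} (hε : 0 ≤ ε) (hεδ : ε ≤ δ)
    (hup : ∀ ω, ∀ i ∈ P, D ω i ≤ (1 + ε) * T i) (havg : ∀ i ∈ P, (1 - δ) * T i ≤ 𝔼 ω, D ω i) :
    ∃ ω, ∀ i ∈ P, (1 - 11 * δ) * T i ≤ D ω i := by
  classical
  have hδ : 0 ≤ δ := hε.trans hεδ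
  have hcard : (0 : ℝ) < (Fintype.card Ω : ℝ) := by
    exact_mod_cast Fintype.card_pos
  have havg' : ∀ i ∈ P, (1 - δ) * T i * (Fintype.card Ω : ℝ) ≤ ∑ ω, D ω i := by
    intro i hi
    have h := havg i hi
    rw [Fintype.expect_eq_sum_div_card, le_div_iff₀ hcard] at h
    exact h
  have hPc : (P.card : ℝ) ≤ 6 := by exact_mod_cast hP
  obtain ⟨ω, hω⟩ : ∃ ω, ∑ i ∈ P, ((1 + ε) - D ω i / T i) ≤ 6 * (ε + δ) := by
    by_contra hcon
    push Not at hcon
    have h1 : ∑ _ω : Ω, 6 * (ε + δ) < ∑ ω : Ω, ∑ i ∈ P, ((1 + ε) - D ω i / T i) :=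
      Finset.sum_lt_sum_of_nonempty Finset.univ_nonempty (fun ω _ => hcon ω)
    rw [Finset.sum_comm, Finset.sum_const, nsmul_eq_mul, Finset.card_univ] at h1
    have h2 : ∑ i ∈ P, ∑ ω : Ω, ((1 + ε) - D ω i / T i)
        ≤ ∑ _i ∈ P, (Fintype.card Ω : ℝ) * (ε + δ) := by
      apply Finset.sum_le_sum
      intro i hi
      have hTi := hT i hi
      have h3 := havg' i hi
      rw [Finset.sum_sub_distrib, Finset.sum_const, nsmul_eq_mul, Finset.card_univ,
        ← Finset.sum_div]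
      have h4 : (1 - δ) * (Fintype.card Ω : ℝ) ≤ (∑ ω, D ω i) / T i := by
        rw [le_div_iff₀ hTi]
        linarith
      linarith
    rw [Finset.sum_const, nsmul_eq_mul] at h2
    have h5 : (P.card : ℝ) * ((Fintype.card Ω : ℝ) * (ε + δ))
        ≤ 6 * ((Fintype.card Ω : ℝ) * (ε + δ)) := by
      apply mul_le_mul_of_nonneg_right hPc
      positivity
    linarith
  refine ⟨ω, fun i hi => ?_⟩
  have hTi := hT i hi
  have hsingle : (1 + ε) - D ω i / T i ≤ ∑ i ∈ P, ((1 + ε) - D ω i / T i) := by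
    apply Finset.single_le_sum (f := fun i => (1 + ε) - D ω i / T i) _ hi
    intro j hj
    have h6 := hup ω j hj
    have : D ω j / T j ≤ 1 + ε := by
      rw [div_le_iff₀ (hT j hj)]
      exact h6
    simpa using this
  have h7 : 1 - 11 * δ ≤ D ω i / T i := by linarith
  rw [le_div_iff₀ hTi] at h7
  exact h7

end Pool.Agent.H77.PH
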