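import Pool.Agent.H77.PH.RefSys

/-!
# UpRef: upper bound for the density on the refinement (about 60 lines)

PROOF. `dn` of the refinement is `card (S.Y × Z) * 𝔼 w : W', A v (t' v + S.f (f' w)) * iv (g' v w = 0)`,
where the function is `S.fn A v ((Ψ v).1 + f' w)` (see `ref_fn` in `Inh`, here by unfolding) and
`g' v w = (S.g v ((Ψ v).1 + f' w), h w + h 0 + (Ψ v).2)`. `SprP` for the piece `f'`, base point
`(Ψ v).1`, further equation `w ↦ h w + h 0 + (Ψ v).2` (quadratic: second component of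
`ref_qm`) bounds the average by `T * 𝔼 w, iv (g' v w = 0)`, and `count_zero` (with `ref_qm` and
`Reg c' σ`) gives `card * 𝔼 iv ≤ 1 + card * (1/2)^σ ≤ 1 + ε`.
-/

set_option autoImplicit false

open Finset Function Module
open scoped BigOperators
open Pool.Agent.H77.KM
open Pool.Agent.H22.QK
open Pool.Agent.H22.QF

namespace Pool.Agent.H77.PH

variable {V : Type} [AddCommGroup V] [Module (ZMod 2) V]
variable (S : Sys V) {W' Z : Type} [AddCommGroup W'] [Module (ZMod 2) W']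
    [Fintype W'] [AddCommGroup Z] [Module (ZMod 2) Z] [Fintype Z] (f' : W' →ₗ[ZMod 2] S.W)
    (hf' : Injective f') (h : W' → Z) (c' : W' →ₗ[ZMod 2] W' →ₗ[ZMod 2] (S.Y × Z)) (e : F3)
    (w0 : S.W) (hq : IsQM (fun w => ((S.g e (w0 + f' w), h w) : S.Y × Z)) c')
    (Ψ : F3 →ₗ[ZMod 2] (S.W × Z))

theorem up_ref (A : F3 → V → ℝ) (v : F3) {k r σ : ℕ} {T ε : ℝ} (hT : 0 ≤ T)
    (hk : finrank (ZMod 2) S.W ≤ finrank (ZMod 2) W' + k) (hz : finrank (ZMod 2) Z ≤ r)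
    (hS : SprP (S.fn A v) (S.g v) k r T) (hc : Reg c' σ)
    (hε : (Fintype.card (S.Y × Z) : ℝ) * (1 / 2) ^ σ ≤ ε) :
    dn ((ref S f' hf' h c' e w0 hq Ψ).fn A v) ((ref S f' hf' h c' e w0 hq Ψ).g v)
      ≤ (1 + ε) * T := by
  have hqm := ref_qm S f' h c' e w0 hq Ψ v
  set g' : W' → S.Y × Z := fun w => (S.g v ((Ψ v).1 + f' w), h w + h 0 + (Ψ v).2) with hg'
  have h2 : IsQM (fun w => h w + h 0 + (Ψ v).2) (c'.compr₂ (LinearMap.snd (ZMod 2) S.Y Z)) := by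
    intro x y
    exact congrArg Prod.snd (hqm x y)
  have h3 := hS W' Z f' hf' hk hz (Ψ v).1 (fun w => h w + h 0 + (Ψ v).2)
    (c'.compr₂ (LinearMap.snd (ZMod 2) S.Y Z)) h2
  have h4 : dn ((ref S f' hf' h c' e w0 hq Ψ).fn A v) ((ref S f' hf' h c' e w0 hq Ψ).g v)
      = (Fintype.card (S.Y × Z) : ℝ) *
        𝔼 w, S.fn A v ((Ψ v).1 + f' w) * iv (g' w = 0) := by
    show (Fintype.card (S.Y × Z) : ℝ) * 𝔼 w : W',
        A v ((S.t + S.f ∘ₗ (LinearMap.fst (ZMod 2) S.W Z) ∘ₗ Ψ) v + (S.f ∘ₗ f') w) *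
          iv (g' w = 0) = _
    congr 1
    refine Finset.expect_congr rfl (fun w _ => ?_)
    congr 2
    show S.t v + S.f ((Ψ v).1) + S.f (f' w) = S.t v + S.f ((Ψ v).1 + f' w)
    rw [map_add, add_assoc]
  rw [h4]
  have hcard : (0 : ℝ) < (Fintype.card (S.Y × Z) : ℝ) := by
    exact_mod_cast Fintype.card_pos
  have h5 := (abs_le.mp (count_zero hqm hc)).2
  have h6 : (Fintype.card (S.Y × Z) : ℝ) * 𝔼 w, iv (g' w = 0) ≤ 1 + ε := by
    have h7 : 𝔼 w, iv (g' w = 0) ≤ 1 / (Fintype.card (S.Y × Z) : ℝ) + (1 / 2) ^ σ := by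
      linarith
    have h8 := mul_le_mul_of_nonneg_left h7 hcard.le
    rw [mul_add, mul_one_div_cancel hcard.ne'] at h8
    linarith
  calc (Fintype.card (S.Y × Z) : ℝ) * 𝔼 w, S.fn A v ((Ψ v).1 + f' w) * iv (g' w = 0)
      ≤ (Fintype.card (S.Y × Z) : ℝ) * (T * 𝔼 w, iv (g' w = 0)) :=
        mul_le_mul_of_nonneg_left h3 hcard.le
    _ = ((Fintype.card (S.Y × Z) : ℝ) * 𝔼 w, iv (g' w = 0)) * T := by ring
    _ ≤ (1 + ε) * T := mul_le_mul_of_nonneg_right h6 hT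

end Pool.Agent.H77.PH
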