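import Pool.Agent.H77.PH.MaxR
import Pool.Agent.H77.PH.Inh
import Pool.Agent.H77.PH.UpRef
import Pool.Agent.H77.PH.AvgRef
import Pool.Agent.H77.PH.Pick

/-!
# PhStep: one phase (about 150 lines)

PROOF. `dn (S.fn A e) (S.g e) ≥ (1/2)^s` by `dn_punit` (`σd ≤ σ'`, `Reg.mono`). `maxR` for the
function `S.fn A e`, the map `S.g e`, polarisation `S.c`, `σ0 = σ'`, `d = s` gives a piece
`(W', Z, f', w0, h, c')`, with density `D ≥ (1/2)^s > 0`, spread with `(1 + 1/N) D`. (For `hσ` of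
`maxR`: `finrank S.Y ≤ R`.) Choose `l` with `l e = 1` (`e ≠ 0`: a coordinate `e i = 1`,
`LinearMap.proj i`), `z = (w0, h 0)`. For `x : Fin 3 → S.W × Z` let
`S_x = ref S f' hf' h c' e w0 hq (psi e l z x)`.
For `v ∈ P` (so `v ≠ 0`, `v ≠ e`) let `T v` be the number of `hS.spr` (`choose`). `up_ref` with
`ε = card (S.Y × Z) (1/2)^σ ≤ 2^(R + J r) (1/2)^σ ≤ 1/(8N) ≤ δ` (`k`, `r` of `up_ref` are the
codimension `phC` and `J r`; `SprP` is monotone in `k`, `r`), `avg_ref`, and `pick` give `x` with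
`(1 - 11 δ) T v ≤ dn` for all `v ∈ P`. Take `S' = S_x`.
* `reg`: `Reg c' σ`. `dimW`, `dimY`: from `maxR`, `Module.finrank_prod`.
* `qd`: `qd_ref` with `k1 = phC`, `r1 = J r`. `spr` for `v ∈ P`: `spr_ref`.
* `spr` for `e`: by `psi_self` `Ψ e = (w0, h 0)`, so `S'.g e w = (S.g e (w0 + f' w), h w + h 0 + h 0)
  = (S.g e (w0 + f' w), h w)` and `S'.fn A e w = S.fn A e (w0 + f' w)` (`ref_fn`): the functions are
  those of `maxR` (`funext`). `T = (1 + 1/N) D > 0` and `(1 - 11 δ) (1 + 1/N) ≤ (1 - 1/N)(1 + 1/N) ≤ 1`.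
-/

set_option autoImplicit false

open Finset Function Module
open scoped BigOperators
open Pool.Agent.H77.KM
open Pool.Agent.H22.QK
open Pool.Agent.H22.QF

namespace Pool.Agent.H77.PH

variable {V : Type} [AddCommGroup V] [Module (ZMod 2) V] [Fintype V]

private lemma spr_mono_aux {X Y : Type} [AddCommGroup X] [Module (ZMod 2) X] [Fintype X]
    [AddCommGroup Y] [Module (ZMod 2) Y] [Fintype Y] {A : X → ℝ} {g : X → Y} {k k' r r' : ℕ}
    {t : ℝ} (hk : k' ≤ k) (hr : r' ≤ r) (h : SprP A g k r t) : SprP A g k' r' t := by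
  intro W Z _ _ _ _ _ _ f hf hk1 hr1 w0 h1 c hc
  exact h W Z f hf (by omega) (by omega) w0 h1 c hc

private lemma exists_dual (e : F3) (he : e ≠ 0) : ∃ l : Dual (ZMod 2) F3, l e = 1 := by
  have h1 : ∃ i, e i ≠ 0 := by
    by_contra hc
    push Not at hc
    exact he (funext hc)
  obtain ⟨i, hi⟩ := h1
  refine ⟨LinearMap.proj i, ?_⟩
  show e i = 1
  have h2 : ∀ a : ZMod 2, a ≠ 0 → a = 1 := by decide
  exact h2 _ hi

private lemma card_two_pow (X : Type) [AddCommGroup X] [Module (ZMod 2) X] [Fintype X] :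
    (Fintype.card X : ℝ) = 2 ^ finrank (ZMod 2) X := by
  have h := Module.card_eq_pow_finrank (K := ZMod 2) (V := X)
  rw [ZMod.card] at h
  rw [h]
  push_cast
  rfl

theorem ph_step {A : F3 → V → ℝ} (hA : ∀ v x, A v x = 0 ∨ A v x = 1) (S : Sys V)
    (P : Finset F3) {k r σ σ' σd s K R N : ℕ} {δ : ℝ} (hN : 1 ≤ N) (hδ : 1 / (N : ℝ) ≤ δ)
    (e : F3) (he : e ≠ 0) (heP : e ∉ P) (hP : P.card ≤ 6)
    (hS : St A S P (k + phC N s k r σ) (r + phJ N s * r) σ' σd s K R δ)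
    (hσ' : σ + phC N s k r σ < σ') (hd : σd ≤ σ)
    (hsize : (2 : ℝ) ^ (R + phJ N s * r) * (1 / 2) ^ σ ≤ 1 / (8 * N)) :
    ∃ S' : Sys V, St A S' (insert e P) k r σ σd s (K + phC N s k r σ) (R + phJ N s * r)
      (11 * δ) := by
  classical
  have hN0 : (0 : ℝ) < N := by exact_mod_cast hN
  have hden : (1 / 2 : ℝ) ^ s ≤ dn (S.fn A e) (S.g e) :=
    dn_punit (S.qm e) (hS.reg.mono (by omega : σd ≤ σ')) (hS.qd e he)
  have hs1 : (2 : ℝ) ^ (finrank (ZMod 2) S.Y + phJ N s * r) * (1 / 2) ^ σ ≤ 1 / (8 * N) := by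
    refine le_trans ?_ hsize
    refine mul_le_mul_of_nonneg_right (pow_le_pow_right₀ (by norm_num) ?_) (by positivity)
    have := hS.dimY
    omega
  obtain ⟨W', Z, i1, i2, i3, i4, i5, i6, f', hf', hW', hZ, w0, h, c', hq, hreg', hD, hspr⟩ :=
    maxR (S.fn A e) (fun x => hA e _) (S.qm e) hS.reg hσ' hN hden hs1
  obtain ⟨l, hl⟩ := exists_dual e he
  have hT' : ∀ v, ∃ T : ℝ, v ∈ P → 0 < T ∧
      SprP (S.fn A v) (S.g v) (k + phC N s k r σ) (r + phJ N s * r) T ∧
      (1 - δ) * T ≤ dn (S.fn A v) (S.g v) := by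
    intro v
    by_cases hv : v ∈ P
    · obtain ⟨-, T, hT⟩ := hS.spr v hv
      exact ⟨T, fun _ => hT⟩
    · exact ⟨0, fun h => absurd h hv⟩
  choose T hT using hT'
  have hε0 : (0 : ℝ) ≤ (Fintype.card (S.Y × Z) : ℝ) * (1 / 2) ^ σ := by positivity
  have hεN : (Fintype.card (S.Y × Z) : ℝ) * (1 / 2) ^ σ ≤ 1 / (8 * N) := by
    refine le_trans ?_ hsize
    refine mul_le_mul_of_nonneg_right ?_ (by positivity)
    rw [card_two_pow (S.Y × Z), Module.finrank_prod]
    refine pow_le_pow_right₀ (by norm_num) ?_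
    have := hS.dimY
    omega
  have hεδ : (Fintype.card (S.Y × Z) : ℝ) * (1 / 2) ^ σ ≤ δ := by
    refine hεN.trans (le_trans ?_ hδ)
    apply one_div_le_one_div_of_le hN0
    nlinarith
  obtain ⟨x, hx⟩ := pick P hP (fun (x : Fin 3 → S.W × Z) v =>
    dn ((ref S f' hf' h c' e w0 hq (psi e l (w0, h 0) x)).fn A v)
      ((ref S f' hf' h c' e w0 hq (psi e l (w0, h 0) x)).g v)) T
    (fun v hv => (hT v hv).1) hε0 hεδ
    (fun x v hv => up_ref S f' hf' h c' e w0 hq (psi e l (w0, h 0) x) A v (hT v hv).1.le hW' hZ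
      (spr_mono_aux (by omega) (by omega) (hT v hv).2.1) hreg' le_rfl)
    (fun v hv => by
      rw [avg_ref S f' hf' h c' e w0 hq A l hl (w0, h 0) v (hS.spr v hv).1
        (fun hh => heP (hh ▸ hv))]
      exact (hT v hv).2.2)
  have hfn : (ref S f' hf' h c' e w0 hq (psi e l (w0, h 0) x)).fn A e
      = fun w => S.fn A e (w0 + f' w) := by
    funext w
    rw [ref_fn, psi_self e l hl]
  have hg : (ref S f' hf' h c' e w0 hq (psi e l (w0, h 0) x)).g e
      = fun w => ((S.g e (w0 + f' w), h w) : S.Y × Z) := by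
    funext w
    show ((S.g e ((psi e l (w0, h 0) x e).1 + f' w), h w + h 0 + (psi e l (w0, h 0) x e).2) :
      S.Y × Z) = _
    rw [psi_self e l hl]
    rw [add_assoc, ZModModule.add_self, add_zero]
  refine ⟨ref S f' hf' h c' e w0 hq (psi e l (w0, h 0) x), ?_, ?_, ?_, ?_, ?_⟩
  · exact hreg'
  · show finrank (ZMod 2) V ≤ finrank (ZMod 2) W' + (K + phC N s k r σ)
    have := hS.dimW
    omega
  · show finrank (ZMod 2) (S.Y × Z) ≤ R + phJ N s * r
    rw [Module.finrank_prod]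
    have := hS.dimY
    omega
  · intro v hv
    exact qd_ref S f' hf' h c' e w0 hq (psi e l (w0, h 0) x) A v hW' hZ (hS.qd v hv)
  · intro v hv
    rw [Finset.mem_insert] at hv
    rcases hv with rfl | hv
    · refine ⟨he, (1 + 1 / (N : ℝ)) *
        dn (fun w => S.fn A v (w0 + f' w)) (fun w => ((S.g v (w0 + f' w), h w) : S.Y × Z)), ?_, ?_, ?_⟩
      · have h1 : (0 : ℝ) < (1 / 2) ^ s := by positivity
        have h2 := lt_of_lt_of_le h1 hD
        positivity
      · rw [hfn, hg]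
        exact hspr
      · rw [hfn, hg]
        have h1 : (0 : ℝ) < (1 / 2) ^ s := by positivity
        have h2 := lt_of_lt_of_le h1 hD
        have h3 : (1 - 11 * δ) * (1 + 1 / (N : ℝ)) ≤ 1 := by
          have h4 : (0 : ℝ) < 1 / N := by positivity
          nlinarith
        rw [← mul_assoc]
        exact mul_le_of_le_one_left h2.le h3
    · exact ⟨(hS.spr v hv).1, T v, (hT v hv).1,
        spr_ref S f' hf' h c' e w0 hq (psi e l (w0, h 0) x) A v hW' hZ (hT v hv).2.1, hx v hv⟩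

end Pool.Agent.H77.PH
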