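import Pool.Agent.H77.PH.Defs

/-!
# Pol: polarisations, change of the target, comparison of the definitions (about 110 lines)

`pol_unique`: `b x y = g (x+y) + g x + g y + g 0 = b' x y` (characteristic two), `LinearMap.ext₂`.

`reg_equiv`: for `l : Dual Y'`, `l ≠ 0`, the functional `l ∘ e` is nonzero (`e` surjective) and
`bl (b.compr₂ e) l = bl b (l ∘ₗ e)`.

`dn_pair`: `(a, c) = 0 ↔ a = 0 ∧ c = 0` (`Prod.mk_eq_zero`), `iv_and`, `Fintype.card_prod`.

`qd_iff`: unfold, the two inequalities are the same by `dn_pair`.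

`spr_iff`: unfold; `iv ((g .., h w) = 0) = iv (g .. = 0) * iv (h w = 0)`, associativity.

`dn_punit`: the pair with `PUnit` is quadratic with polarisation `bpair c 0` and regular: a nonzero
`l` on `Y × PUnit` is nonzero on the first factor, and `bl (bpair c 0) l = bl c (l ∘ inl)` (or
`reg_equiv` for `Y ≃ Y × PUnit`). Then `QD` for `W = V`, `f = id`, `w0 = 0`, `h = 0`;
`(g (0 + w), h w) = 0 ↔ g w = 0`, `card (Y × PUnit) = card Y`.
-/

set_option autoImplicit false

open Finset Function Module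
open scoped BigOperators
open Pool.Agent.H77.KM
open Pool.Agent.H22.QK
open Pool.Agent.H22.QF

namespace Pool.Agent.H77.PH

section

variable {V : Type} [AddCommGroup V] [Module (ZMod 2) V]
variable {Y : Type} [AddCommGroup Y] [Module (ZMod 2) Y]

theorem pol_unique {g : V → Y} {b b' : V →ₗ[ZMod 2] V →ₗ[ZMod 2] Y} (h : IsQM g b)
    (h' : IsQM g b') : b = b' := by
  refine LinearMap.ext₂ (fun x y => ?_)
  have h1 := h x y
  rw [h' x y] at h1
  exact (add_left_cancel h1).symm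

theorem reg_equiv {Y' : Type} [AddCommGroup Y'] [Module (ZMod 2) Y'] (e : Y ≃ₗ[ZMod 2] Y')
    (b : V →ₗ[ZMod 2] V →ₗ[ZMod 2] Y) {s : ℕ} (h : Reg b s) :
    Reg (b.compr₂ (e : Y →ₗ[ZMod 2] Y')) s := by
  intro l hl
  have h1 : bl (b.compr₂ (e : Y →ₗ[ZMod 2] Y')) l = bl b (l ∘ₗ (e : Y →ₗ[ZMod 2] Y')) :=
    LinearMap.ext₂ (fun x y => rfl)
  rw [h1]
  refine h _ (fun h2 => hl ?_)
  refine LinearMap.ext (fun y => ?_)
  have h3 := LinearMap.congr_fun h2 (e.symm y)
  rw [LinearMap.comp_apply, LinearEquiv.coe_coe, LinearEquiv.apply_symm_apply] at h3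
  exact h3

end

section

variable {V : Type} [AddCommGroup V] [Module (ZMod 2) V] [Fintype V]
variable {Y : Type} [AddCommGroup Y] [Module (ZMod 2) Y] [Fintype Y]

omit [Fintype V] [Fintype Y] [AddCommGroup V] [Module (ZMod 2) V] [Module (ZMod 2) Y] in
private theorem iv_pair_zero {Z : Type} [AddCommGroup Z] (a : Y) (c : Z) :
    iv (((a, c) : Y × Z) = 0) = iv (a = 0) * iv (c = 0) := by
  rw [← iv_and]
  exact iv_congr Prod.mk_eq_zero

theorem dn_pair {Z : Type} [AddCommGroup Z] [Module (ZMod 2) Z] [Fintype Z] (A : V → ℝ)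
    (g : V → Y) (h : V → Z) :
    dn A (fun w => ((g w, h w) : Y × Z))
      = (Fintype.card Y : ℝ) * Fintype.card Z * 𝔼 w, A w * iv (g w = 0) * iv (h w = 0) := by
  unfold dn
  rw [Fintype.card_prod, Nat.cast_mul]
  congr 1
  refine Finset.expect_congr rfl (fun w _ => ?_)
  rw [iv_pair_zero, mul_assoc]

theorem qd_iff (A : V → ℝ) (g : V → Y) (k R s e : ℕ) : QD A g k R s e ↔ QDense A g k R s e := by
  constructor
  · intro h W Z _ _ _ _ _ _ f hf h1 h2 w0 h' c hc hr
    have h3 := h W Z f hf h1 h2 w0 h' c hc hr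
    rw [dn_pair (fun w => A (w0 + f w)) (fun w => g (w0 + f w)) h'] at h3
    exact h3
  · intro h W Z _ _ _ _ _ _ f hf h1 h2 w0 h' c hc hr
    have h3 := h W Z f hf h1 h2 w0 h' c hc hr
    rw [dn_pair (fun w => A (w0 + f w)) (fun w => g (w0 + f w)) h']
    exact h3

theorem spr_iff (A : V → ℝ) (g : V → Y) (k r : ℕ) (t : ℝ) :
    SprP A g k r t ↔ SprV (fun w => A w * iv (g w = 0)) g k r t := by
  constructor
  · intro h W Z _ _ _ _ _ _ f hf h1 h2 w0 h' c hc
    have h3 := h W Z f hf h1 h2 w0 h' c hc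
    simp only [iv_pair_zero, ← mul_assoc] at h3
    exact h3
  · intro h W Z _ _ _ _ _ _ f hf h1 h2 w0 h' c hc
    have h3 := h W Z f hf h1 h2 w0 h' c hc
    simp only [iv_pair_zero, ← mul_assoc]
    exact h3

theorem dn_punit {A : V → ℝ} {g : V → Y} {c : V →ₗ[ZMod 2] V →ₗ[ZMod 2] Y} (hg : IsQM g c)
    {k R s e : ℕ} (hc : Reg c s) (h : QD A g k R s e) : (1 / 2) ^ e ≤ dn A g := by
  have hz : finrank (ZMod 2) PUnit.{1} ≤ R := by
    rw [finrank_zero_of_subsingleton]
    exact Nat.zero_le _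
  have hq : IsQM (fun w => ((g (0 + (LinearMap.id : V →ₗ[ZMod 2] V) w),
      (fun _ => 0 : V → PUnit.{1}) w) : Y × PUnit.{1}))
      (c.compr₂ (LinearMap.inl (ZMod 2) Y PUnit.{1})) := by
    intro x y
    refine Prod.ext ?_ rfl
    show g (0 + (x + y)) = g (0 + x) + g (0 + y) + g (0 + 0) + c x y
    simp only [zero_add]
    exact hg x y
  have hr : Reg (c.compr₂ (LinearMap.inl (ZMod 2) Y PUnit.{1})) s := by
    intro l hl
    have h1 : bl (c.compr₂ (LinearMap.inl (ZMod 2) Y PUnit.{1})) l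
        = bl c (l ∘ₗ (LinearMap.inl (ZMod 2) Y PUnit.{1})) :=
      LinearMap.ext₂ (fun x y => rfl)
    rw [h1]
    refine hc _ (fun h2 => hl ?_)
    refine LinearMap.ext (fun y => ?_)
    have h3 := LinearMap.congr_fun h2 y.1
    have h4 : y = LinearMap.inl (ZMod 2) Y PUnit.{1} y.1 := Prod.ext rfl rfl
    rw [h4]
    exact h3
  have h1 := h V PUnit.{1} LinearMap.id injective_id (Nat.le_add_right _ _) hz 0 (fun _ => 0)
    _ hq hr
  rw [dn_pair (fun w => A (0 + (LinearMap.id : V →ₗ[ZMod 2] V) w))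
    (fun w => g (0 + (LinearMap.id : V →ₗ[ZMod 2] V) w)) (fun _ => (0 : PUnit.{1}))] at h1
  unfold dn
  refine h1.trans (le_of_eq ?_)
  rw [Fintype.card_punit, Nat.cast_one, mul_one]
  congr 1
  refine Finset.expect_congr rfl (fun w _ => ?_)
  rw [iv_pos (rfl : (0 : PUnit.{1}) = 0), mul_one, LinearMap.id_apply, zero_add]

end

end Pool.Agent.H77.PH
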