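import Pool.Agent.H77.PH.Defs

/-!
# QSum: sums of quadratic maps over `F3` (about 90 lines)

`lsum`: `q v = ∑ i, v i • q (Pi.single i 1)` (`LinearMap.pi_apply_eq_sum_univ`), so
`∑ v, q v = ∑ i, (∑ v : F3, v i) • q (..) = 0` because `∑ v : Fin 3 → ZMod 2, v i = 0`
(`decide`, or four ones); the term `v = 0` is zero (`Finset.sum_erase`).

`qsum`: put `k v = h (φ v) + h 0`. Then `k 0 = 0`, `k (u + v) = k u + k v + c (φ u) (φ v)`. With
`e i = Pi.single i 1` and `v = ∑ i, v i • e i` one gets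
`k v = ∑ i, v i • k (e i) + ∑ i, ∑ j, if i < j then (v i * v j) • c (φ (e i)) (φ (e j)) else 0`
(check it for the 8 vectors, or by adding the coordinates one after the other), and
`∑ v : F3, v i = 0`, `∑ v : F3, v i * v j = 0` for `i ≠ j` (`decide`). Other proof: `∑ v` over the
eight vectors `a e0 + b e1 + c e2` written out with `Fin.sum_univ...`; every `k (e i)` occurs four
times and every `c (φ e_i) (φ e_j)` twice. The term `v = 0` is zero.

`qsum0`: `qsum` and `G 0 = 0`.
-/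

set_option autoImplicit false

open Finset Function Module
open scoped BigOperators
open Pool.Agent.H77.KM
open Pool.Agent.H22.QK
open Pool.Agent.H22.QF

namespace Pool.Agent.H77.PH

section

variable {V : Type} [AddCommGroup V] [Module (ZMod 2) V]
variable {Y : Type} [AddCommGroup Y] [Module (ZMod 2) Y]

private lemma qs_one (i : Fin 3) : ∑ v : F3, v i = 0 := by
  revert i
  decide

private lemma qs_two (i j : Fin 3) (h : i ≠ j) : ∑ v : F3, v i * v j = 0 := by
  revert i j
  decide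

private lemma qs_exp (K : F3 → Y) (B : F3 →ₗ[ZMod 2] F3 →ₗ[ZMod 2] Y) (h0 : K 0 = 0)
    (hK : ∀ u v, K (u + v) = K u + K v + B u v) (e0 e1 e2 : F3) (a b c : ZMod 2) :
    K (a • e0 + b • e1 + c • e2) = a • K e0 + b • K e1 + c • K e2
      + (a * b) • B e0 e1 + (a * c) • B e0 e2 + (b * c) • B e1 e2 := by
  have hs : ∀ (t : ZMod 2) (u : F3), K (t • u) = t • K u := by
    intro t u
    have ht : t = 0 ∨ t = 1 := by revert t; decide
    rcases ht with rfl | rfl
    · rw [zero_smul, zero_smul, h0]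
    · rw [one_smul, one_smul]
  rw [hK, hK, hs, hs, hs, map_add, map_smul, map_smul, map_smul, LinearMap.add_apply,
    LinearMap.smul_apply, LinearMap.smul_apply]
  rw [map_smul, LinearMap.smul_apply, smul_add, smul_smul, smul_smul, smul_smul]
  rw [mul_comm c a, mul_comm c b, mul_comm b a]
  abel

private lemma qs_sum (K : F3 → Y) (B : F3 →ₗ[ZMod 2] F3 →ₗ[ZMod 2] Y) (h0 : K 0 = 0)
    (hK : ∀ u v, K (u + v) = K u + K v + B u v) : ∑ v ∈ Finset.univ.erase (0 : F3), K v = 0 := by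
  classical
  rw [Finset.sum_erase _ h0]
  have hv : ∀ v : F3, v = v 0 • (Pi.single 0 1 : F3) + v 1 • (Pi.single 1 1 : F3)
      + v 2 • (Pi.single 2 1 : F3) := by
    intro v
    ext i
    fin_cases i <;> simp
  have h : ∀ v : F3, K v = v 0 • K (Pi.single 0 1) + v 1 • K (Pi.single 1 1)
      + v 2 • K (Pi.single 2 1)
      + (v 0 * v 1) • B (Pi.single 0 1) (Pi.single 1 1)
      + (v 0 * v 2) • B (Pi.single 0 1) (Pi.single 2 1)
      + (v 1 * v 2) • B (Pi.single 1 1) (Pi.single 2 1) := by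
    intro v
    conv_lhs => rw [hv v]
    exact qs_exp K B h0 hK _ _ _ _ _ _
  rw [Finset.sum_congr rfl fun v _ => h v]
  simp only [Finset.sum_add_distrib, ← Finset.sum_smul]
  rw [qs_one, qs_one, qs_one, qs_two 0 1 (by decide), qs_two 0 2 (by decide),
    qs_two 1 2 (by decide)]
  simp

theorem lsum (q : F3 →ₗ[ZMod 2] Y) : ∑ v ∈ Finset.univ.erase (0 : F3), q v = 0 := by
  refine qs_sum (fun v => q v) 0 (map_zero q) ?_
  intro u v
  show q (u + v) = q u + q v + 0
  rw [map_add, add_zero]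

theorem qsum {h : V → Y} {c : V →ₗ[ZMod 2] V →ₗ[ZMod 2] Y} (hh : IsQM h c)
    (φ : F3 →ₗ[ZMod 2] V) : ∑ v ∈ Finset.univ.erase (0 : F3), (h (φ v) + h 0) = 0 := by
  have h2 : h 0 + h 0 = 0 := by
    have : (2 : ZMod 2) • h 0 = 0 := by
      rw [show (2 : ZMod 2) = 0 from rfl, zero_smul]
    rwa [two_smul] at this
  refine qs_sum (fun v => h (φ v) + h 0) (c.compl₁₂ φ φ) ?_ ?_
  · show h (φ 0) + h 0 = 0
    rw [map_zero, h2]
  · intro u v
    show h (φ (u + v)) + h 0 = h (φ u) + h 0 + (h (φ v) + h 0) + c (φ u) (φ v)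
    rw [map_add, hh]
    abel

theorem qsum0 {G : V → Y} {c : V →ₗ[ZMod 2] V →ₗ[ZMod 2] Y} (hG : IsQM G c) (h0 : G 0 = 0)
    (φ : F3 →ₗ[ZMod 2] V) : ∑ v ∈ Finset.univ.erase (0 : F3), G (φ v) = 0 := by
  have h1 := qsum hG φ
  rw [h0] at h1
  simpa only [add_zero] using h1

end

end Pool.Agent.H77.PH
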