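import Pool.Agent.H77.PH.Pol
import Pool.Agent.H77.PH.QSum

/-!
# RefAux: the refined system is a system (about 80 lines)

`ref_qm`: `c'` is the polarisation of the pair `(S.g e (w0 + f' w), h w)`. Its first component is
the polarisation of `w ↦ S.g e (w0 + f' w)`, so it is `pb S.c f'` (`IsQM.map` with `LinearMap.fst`,
`pol_unique`, `(S.qm e).pull f' w0`), its second component `ch` is the polarisation of `h`. Hence
`c' = bpair (pb S.c f') ch` and for every `v`, `w ↦ S.g v ((Ψ v).1 + f' w)` is an `IsQM` for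
`pb S.c f'` (`(S.qm v).pull`), `w ↦ h w + h 0 + (Ψ v).2` is one for `ch` (`IsQM.addAffine` with
`L = 0`), and `IsQM.pair`.

`ref_sum`: componentwise (`Prod.ext`, `Prod.fst_sum`, `Prod.snd_sum`). First component: `S.sum` for the linear map
`v ↦ (Ψ v).1 + f' (φ v)`. Second component: `qsum` for `h` (the map `h` is quadratic, see above) and
`lsum` for `v ↦ (Ψ v).2` (`Finset.sum_add_distrib`).
-/

set_option autoImplicit false

open Finset Function Module
open scoped BigOperators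
open Pool.Agent.H77.KM
open Pool.Agent.H22.QK
open Pool.Agent.H22.QF

namespace Pool.Agent.H77.PH

variable {V : Type} [AddCommGroup V] [Module (ZMod 2) V]

theorem ref_qm (S : Sys V) {W' Z : Type} [AddCommGroup W'] [Module (ZMod 2) W']
    [Fintype W'] [AddCommGroup Z] [Module (ZMod 2) Z] [Fintype Z] (f' : W' →ₗ[ZMod 2] S.W)
    (h : W' → Z) (c' : W' →ₗ[ZMod 2] W' →ₗ[ZMod 2] (S.Y × Z)) (e : F3) (w0 : S.W)
    (hq : IsQM (fun w => ((S.g e (w0 + f' w), h w) : S.Y × Z)) c')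
    (Ψ : F3 →ₗ[ZMod 2] (S.W × Z)) (v : F3) :
    IsQM (fun w => ((S.g v ((Ψ v).1 + f' w), h w + h 0 + (Ψ v).2) : S.Y × Z)) c' := by
  sorry

theorem ref_sum (S : Sys V) {W' Z : Type} [AddCommGroup W'] [Module (ZMod 2) W']
    [Fintype W'] [AddCommGroup Z] [Module (ZMod 2) Z] [Fintype Z] (f' : W' →ₗ[ZMod 2] S.W)
    (h : W' → Z) (c' : W' →ₗ[ZMod 2] W' →ₗ[ZMod 2] (S.Y × Z)) (e : F3) (w0 : S.W)
    (hq : IsQM (fun w => ((S.g e (w0 + f' w), h w) : S.Y × Z)) c')
    (Ψ : F3 →ₗ[ZMod 2] (S.W × Z)) (φ : F3 →ₗ[ZMod 2] W') :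
    ∑ v ∈ Finset.univ.erase (0 : F3),
      ((S.g v ((Ψ v).1 + f' (φ v)), h (φ v) + h 0 + (Ψ v).2) : S.Y × Z) = 0 := by
  sorry

end Pool.Agent.H77.PH
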