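import Pool.Agent.H77.PH.RefAux

/-!
# RefSys: the refined system (definition, complete)
-/

set_option autoImplicit false

open Finset Function Module
open scoped BigOperators
open Pool.Agent.H77.KM
open Pool.Agent.H22.QK
open Pool.Agent.H22.QF

namespace Pool.Agent.H77.PH

variable {V : Type} [AddCommGroup V] [Module (ZMod 2) V]

/-- The refinement of a system by a piece and a linear map `Ψ`. -/
def ref (S : Sys V) {W' Z : Type} [AddCommGroup W'] [Module (ZMod 2) W']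
    [Fintype W'] [AddCommGroup Z] [Module (ZMod 2) Z] [Fintype Z] (f' : W' →ₗ[ZMod 2] S.W)
    (hf' : Injective f') (h : W' → Z) (c' : W' →ₗ[ZMod 2] W' →ₗ[ZMod 2] (S.Y × Z)) (e : F3)
    (w0 : S.W) (hq : IsQM (fun w => ((S.g e (w0 + f' w), h w) : S.Y × Z)) c')
    (Ψ : F3 →ₗ[ZMod 2] (S.W × Z)) : Sys V where
  W := W'
  Y := S.Y × Z
  t := S.t + S.f ∘ₗ (LinearMap.fst (ZMod 2) S.W Z) ∘ₗ Ψ
  f := S.f ∘ₗ f'
  g := fun v w => (S.g v ((Ψ v).1 + f' w), h w + h 0 + (Ψ v).2)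
  c := c'
  inj := S.inj.comp hf'
  qm := ref_qm S f' h c' e w0 hq Ψ
  sum := ref_sum S f' h c' e w0 hq Ψ

end Pool.Agent.H77.PH
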